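import Pool.Agent.Work.MP_b0497c_an.Forced.W.Defs

set_option autoImplicit false

/-!
# WKB module: Lagrangian data, symbol classes
-/

open scoped ContDiff
open Set

namespace Pool.Agent.Work.MP_b0497c_an.Forced.W

/-- The standing data and hypotheses of the expansion. -/
structure Data (ι : Type) where
  Lam : ι → ℝ
  I : ι → Set ℝ
  N : ι → ℝ
  a : ι → ℝ
  p : ι → ℝ → ℝ
  kap : ι → V3
  G : Fin 3 → Fin 3 → ι → ℝ → ℝ
  B : Fin 3 → Fin 3 → ι → ℝ → ℝ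
  /-- main amplitude and its pressure -/
  v : Fin 3 → ι → ℝ → ℝ
  lam : ι → ℝ → ℝ
  two_le_Lam : ∀ i, 2 ≤ Lam i
  a_nonneg : ∀ i, 0 ≤ a i
  a_le : ∀ i, 1 + a i ≤ N i
  p_nonneg : ∀ i t, 0 ≤ p i t
  p_le : ∀ i, ∀ t ∈ I i, p i t ≤ a i
  kap_ge : ∀ i, 1 / 2 ≤ ∑ k, kap i k * kap i k
  kap_le : ∃ n : ℕ, ∀ i k, |kap i k| ≤ Lam i ^ n
  mod_G : ∀ a b, Mod Lam I (fun _ _ => 1) (G a b)
  mod_B : ∀ a b, Mod Lam I (fun _ _ => 1) (B a b)
  mod_v : ∀ a, Mod Lam I p (v a)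
  mod_lam : Mod Lam I p lam
  v_kap : ∀ i t, ∑ k, kap i k * v k i t = 0
  v_eq : ∀ i t a, ∑ b, G a b i t * deriv (v b i) t + ∑ b, B a b i t * v b i t
    + lam i t * kap i a = 0
  solve : ∀ mu : ι → ℝ, (∀ i, 0 ≤ mu i) → ∀ r : Fin 3 → ι → ℝ → ℝ,
    (∀ a, Mod Lam I (fun i t => mu i * p i t) (r a)) →
    ∃ (u : Fin 3 → ι → ℝ → ℝ) (l : ι → ℝ → ℝ),
      (∀ a, Mod Lam I (fun i t => mu i * p i t) (u a)) ∧
      Mod Lam I (fun i t => mu i * p i t) l ∧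
      (∀ i t, ∑ k, kap i k * u k i t = 0) ∧
      ∀ i t a, ∑ b, G a b i t * deriv (u b i) t + ∑ b, B a b i t * u b i t
        + l i t * kap i a = r a i t

variable {ι : Type}

namespace Data

/-- `G` as symbols. -/
def Gs (S : Data ι) (a b : Fin 3) : Sm ι := cf (S.G a b) (S.mod_G a b).1

/-- `B` as symbols. -/
def Bs (S : Data ι) (a b : Fin 3) : Sm ι := cf (S.B a b) (S.mod_B a b).1

/-- `v` as symbols. -/
def vs (S : Data ι) (a : Fin 3) : Sm ι := cf (S.v a) (S.mod_v a).1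

/-- `lam` as symbol. -/
def lams (S : Data ι) : Sm ι := cf S.lam S.mod_lam.1

/-- `κ_k` as symbol. -/
def ks (S : Data ι) (k : Fin 3) : Sm ι := cst (fun i => S.kap i k)

/-- `N` as symbol. -/
def Ns (S : Data ι) : Sm ι := cst S.N

/-- `N⁻¹` as symbol. -/
noncomputable def Nis (S : Data ι) : Sm ι := cst (fun i => (S.N i)⁻¹)

/-- `D_k`. -/
noncomputable def D (S : Data ι) (k : Fin 3) : Derivation ℝ (Sm ι) (Sm ι) := DD S.N S.kap k

/-- The class `O(j)`. -/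
noncomputable def O (S : Data ι) (j : ℕ) : Submodule ℝ (Sm ι) :=
  Sym S.Lam S.I (wt S.N S.a S.p j) Pb Qp

/-- The class of flat symbols `K(j)`. -/
noncomputable def K (S : Data ι) (j : ℕ) : Submodule ℝ (Sm ι) :=
  Sym S.Lam S.I (wt S.N S.a S.p j) Pf Qp

/-- Flat symbols with mean zero. -/
noncomputable def Kz (S : Data ι) (j : ℕ) : Submodule ℝ (Sm ι) :=
  Sym S.Lam S.I (wt S.N S.a S.p j) Pf Qz

/-- Flat symbols without `θ`. -/
noncomputable def Km (S : Data ι) (j : ℕ) : Submodule ℝ (Sm ι) :=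
  Sym S.Lam S.I (wt S.N S.a S.p j) Pf Q1

/-- Euler operator. -/
noncomputable def E (S : Data ι) (V : Fin 3 → Sm ι) (q : Sm ι) (a : Fin 3) : Sm ι :=
  EE S.Gs S.Bs S.D V q a

/-- Linear part. -/
noncomputable def L (S : Data ι) (V : Fin 3 → Sm ι) (q : Sm ι) (a : Fin 3) : Sm ι :=
  LL S.Gs S.Bs S.D V q a

end Data

end Pool.Agent.Work.MP_b0497c_an.Forced.W
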