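import Pool.Agent.Work.MP_b0497c_an.Forced.W.Defs

set_option autoImplicit false

/-!
# WKB module: the interface (input `Lev`, output `claimWKB`)

All bounds are uniform over the index `i : ι` (the levels); `Lam i` is the gauge (`exp (L_i)` in
PROOF.md).  All functions of time are smooth on all of `ℝ`, bounds are only claimed on
`Icc (s i) (e i + del i)`.
-/

open scoped ContDiff Matrix
open Set

namespace Pool.Agent.Work.MP_b0497c_an.Forced.W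

/-- The Kelvin vector field: `-M X + 2 (K·MX)/|K|² K`. -/
noncomputable def kelvin (M : Matrix (Fin 3) (Fin 3) ℝ) (K X : V3) : V3 :=
  - (M *ᵥ X) + (2 * (K ⬝ᵥ (M *ᵥ X)) / (K ⬝ᵥ K)) • K

/-- Input of the WKB module: linear flows `M`, their flow maps `F`, `Fi = F⁻¹`, wave vectors `K`,
amplitudes `w`, weights `p`. -/
structure Lev (ι : Type) where
  Lam : ι → ℝ
  /-- physical frequency -/
  Nf : ι → ℝ
  a : ι → ℝ
  b : ι → ℝ
  /-- radius of the packet in Lagrangian coordinates -/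
  rho : ι → ℝ
  /-- radius of the packet in physical space -/
  R : ι → ℝ
  s : ι → ℝ
  e : ι → ℝ
  del : ι → ℝ
  p : ι → ℝ → ℝ
  kap : ι → V3
  M : ι → ℝ → Matrix (Fin 3) (Fin 3) ℝ
  F : ι → ℝ → Matrix (Fin 3) (Fin 3) ℝ
  Fi : ι → ℝ → Matrix (Fin 3) (Fin 3) ℝ
  K : ι → ℝ → V3
  w : ι → ℝ → V3
  two_le_Lam : ∀ i, 2 ≤ Lam i
  a_nonneg : ∀ i, 0 ≤ a i
  b_nonneg : ∀ i, 0 ≤ b i
  a_le : ∀ i, 1 + a i ≤ Nf i * rho i
  rho_pos : ∀ i, 0 < rho i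
  rho_le : ∀ i, rho i ≤ 1
  rho_inv : ∃ n : ℕ, ∀ i, (rho i)⁻¹ ≤ Lam i ^ n
  R_le : ∀ i, R i ≤ 1
  del_pos : ∀ i, 0 < del i
  del_inv : ∃ n : ℕ, ∀ i, (del i)⁻¹ ≤ Lam i ^ n
  s_le : ∀ i, s i + del i ≤ e i
  /-- the windows have moderate length -/
  len_le : ∃ n : ℕ, ∀ i, e i + del i - s i ≤ Lam i ^ n
  p_nonneg : ∀ i t, 0 ≤ p i t
  p_le : ∀ i, ∀ t ∈ Icc (s i) (e i + del i), p i t ≤ a i
  p_small : ∀ i, ∀ t ∈ Icc (s i) (s i + del i), p i t ≤ b i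
  kap_ge : ∀ i, 1 / 2 ≤ kap i ⬝ᵥ kap i
  kap_le : ∃ n : ℕ, ∀ i k, |kap i k| ≤ Lam i ^ n
  /-- the support of the packet lies in the ball of radius `R` -/
  F_ball : ∀ i, ∀ t ∈ Icc (s i) (e i + del i), ∀ y : V3, ‖y‖ ≤ rho i → ‖F i t *ᵥ y‖ ≤ R i
  mod_M : ∀ j k, Mod Lam (fun i => Icc (s i) (e i + del i)) (fun _ _ => 1) (fun i t => M i t j k)
  mod_F : ∀ j k, Mod Lam (fun i => Icc (s i) (e i + del i)) (fun _ _ => 1) (fun i t => F i t j k)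
  mod_Fi : ∀ j k, Mod Lam (fun i => Icc (s i) (e i + del i)) (fun _ _ => 1)
    (fun i t => Fi i t j k)
  mod_w : ∀ j, Mod Lam (fun i => Icc (s i) (e i + del i)) p (fun i t => w i t j)
  F_Fi : ∀ i t, F i t * Fi i t = 1
  F_deriv : ∀ i t j k, HasDerivAt (fun t => F i t j k) ((M i t * F i t) j k) t
  K_kap : ∀ i t, (F i t)ᵀ *ᵥ K i t = kap i
  w_K : ∀ i t, K i t ⬝ᵥ w i t = 0
  w_eq : ∀ i t, HasDerivAt (w i) (kelvin (M i t) (K i t) (w i t)) t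
  trace_M : ∀ i t, (M i t).trace = 0
  /-- dominance: sources bounded by a multiple of the weight produce solutions bounded by a
  multiple of the weight -/
  dom : ∃ n : ℕ, ∀ i, ∀ X f : ℝ → V3, ContDiff ℝ ∞ X → ContDiff ℝ ∞ f → X (s i) = 0 →
    (∀ t, K i t ⬝ᵥ X t = 0) → (∀ t, K i t ⬝ᵥ f t = 0) →
    (∀ t, HasDerivAt X (kelvin (M i t) (K i t) (X t) - f t) t) →
    ∀ D : ℝ, 0 ≤ D → (∀ t ∈ Icc (s i) (e i + del i), ‖f t‖ ≤ D * p i t) →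
    ∀ t ∈ Icc (s i) (e i + del i), ‖X t‖ ≤ D * Lam i ^ n * p i t

/-- Output of the WKB module. For every number `J` of correctors there are packets `w` with
pressures `q` and errors `g`, with
* everything smooth on `ℝ × ℝ³` and zero for `t ≤ s`,
* supports in the ball of radius `R`, `g = 0` for `t ≥ e + del`,
* `div w = 0` and the Euler equation for `M x + w` with force `g` for `t ≤ e`,
* exact plane wave near `0`, so that the flow is `M + w K^T` there for `s + del ≤ t`,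
* bounds for all derivatives of `g` everywhere. -/
def claimWKB : Prop := ∀ (ι : Type) (S : Lev ι) (J : ℕ),
  ∃ (W : ι → ℝ → V3 → V3) (q : ι → ℝ → V3 → ℝ) (g : ι → ℝ → V3 → V3),
    (∀ i, ContDiff ℝ ∞ (fun z : ℝ × V3 => W i z.1 z.2)) ∧
    (∀ i, ContDiff ℝ ∞ (fun z : ℝ × V3 => q i z.1 z.2)) ∧
    (∀ i, ContDiff ℝ ∞ (fun z : ℝ × V3 => g i z.1 z.2)) ∧
    (∀ i t x, t ≤ S.s i → W i t x = 0 ∧ q i t x = 0 ∧ g i t x = 0) ∧
    (∀ i, ∀ t ∈ Icc (S.s i) (S.e i + S.del i), ∀ x, S.R i < ‖x‖ →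
      W i t x = 0 ∧ q i t x = 0 ∧ g i t x = 0) ∧
    (∀ i t x, S.e i + S.del i ≤ t → g i t x = 0) ∧
    (∀ i t x, ∑ k, fderiv ℝ (fun y => W i t y k) x (Pi.single k 1) = 0) ∧
    (∀ i, ∀ t ≤ S.e i, ∀ x j,
      deriv (fun τ => W i τ x j) t
        + ∑ k, (S.M i t *ᵥ x) k * fderiv ℝ (fun y => W i t y j) x (Pi.single k 1)
        + (S.M i t *ᵥ W i t x) j
        + ∑ k, W i t x k * fderiv ℝ (fun y => W i t y j) x (Pi.single k 1)
        + fderiv ℝ (fun y => q i t y) x (Pi.single j 1) = g i t x j) ∧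
    (∀ i, ∃ η : ℝ → ℝ, (∀ t, 0 ≤ η t ∧ η t ≤ 1) ∧ (∀ t, S.s i + S.del i ≤ t → η t = 1) ∧
      ∀ t x, ‖S.Fi i t *ᵥ x‖ < S.rho i / 2 → S.Nf i * |S.K i t ⬝ᵥ x| ≤ 1 / 12 →
        W i t x = (η t * (S.K i t ⬝ᵥ x)) • S.w i t) ∧
    ∀ m : ℕ, ∃ n : ℕ, ∀ i, ∀ z : ℝ × V3,
      ‖iteratedFDeriv ℝ m (fun z : ℝ × V3 => g i z.1 z.2) z‖ ≤
        S.Lam i ^ n * ((1 + S.a i) ^ 2 * ((S.Nf i * S.rho i) ^ 2)⁻¹
          + (S.Nf i * S.rho i) ^ m * (S.b i + ((1 + S.a i) / (S.Nf i * S.rho i)) ^ J))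

end Pool.Agent.Work.MP_b0497c_an.Forced.W
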