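import Pool.Agent.Work.MP_b0497c_an.Forced.W.StmtsA
import Pool.Agent.Work.MP_b0497c_an.Forced.W.Data
import Pool.Agent.Work.MP_b0497c_an.Forced.W.Lev

set_option autoImplicit false

/-!
# WKB module: statements, part 2 (recursion, Eulerian transfer)
-/

open scoped ContDiff Matrix
open Set

namespace Pool.Agent.Work.MP_b0497c_an.Forced.W

/-! ## D: the recursion in Lagrangian variables -/

/-- D1: splitting of `D_k`, commutation, `div curl = 0`. -/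
def claimD1 : Prop := ∀ (ι : Type) (S : Data ι),
    (∀ k f, S.D k f = dy k f + S.Ns * S.ks k * dth f) ∧
    (∀ k l f, S.D k (S.D l f) = S.D l (S.D k f)) ∧
    (∀ A : Fin 3 → Sm ι, ∑ k, S.D k (curlD S.D A k) = 0)

/-- D2: closure properties of the classes. -/
def claimD2 : Prop := ∀ (ι : Type) (S : Data ι),
    (∀ j l f g, f ∈ S.O j → g ∈ S.K l → f * g ∈ S.K (j + l + 1)) ∧
    (∀ j l, j ≤ l → S.O l ≤ S.O j ∧ S.K l ≤ S.K j ∧ S.Km l ≤ S.Km j ∧ S.Kz l ≤ S.Kz j) ∧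
    (∀ j, S.K j ≤ S.O j ∧ S.Kz j ≤ S.K j ∧ S.Km j ≤ S.K j) ∧
    (∀ j f, f ∈ S.O j → dt f ∈ S.O j ∧ dth f ∈ S.O j ∧ ∀ k, dy k f ∈ S.O j) ∧
    (∀ j f, f ∈ S.K j → dt f ∈ S.K j ∧ dth f ∈ S.K j ∧ ∀ k, dy k f ∈ S.K j) ∧
    (∀ j f, f ∈ S.O j → S.Nis * f ∈ S.O (j + 1) ∧ (∀ a, S.ks a * f ∈ S.O j) ∧
      ∀ a b, S.Gs a b * f ∈ S.O j ∧ S.Bs a b * f ∈ S.O j) ∧
    (∀ j f, f ∈ S.K j → S.Nis * f ∈ S.K (j + 1) ∧ (∀ a, S.ks a * f ∈ S.K j) ∧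
      ∀ a b, S.Gs a b * f ∈ S.K j ∧ S.Bs a b * f ∈ S.K j) ∧
    (∀ j f, f ∈ S.K j → ∃ m ∈ S.Km j, ∃ o ∈ S.Kz j, f = m + o) ∧
    S.Ns * S.Nis = 1

/-- D3: one packet of corrector type. `u`, `l` are coefficients with `κ·u = 0`, `psi` a profile,
`g` a mean zero profile. The vector potential `A = N⁻¹ (u × κ)/|κ|² psi H`, `H' = g`, gives a
divergence free `V = u psi g + N⁻¹ (...)`; with the pressure `N⁻¹ l psi H` the linear part of the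
Euler operator is `(G u' + B u + l κ) psi g + N⁻¹ (...)`.  All the terms `(...)` are in the class
of weight `mu p` with profile `∂ psi`. Here `P'` is any class of spatial profiles which
contains all `∂_k psi`. -/
def claimD3 : Prop := ∀ (ι : Type) (S : Data ι) (mu : ι → ℝ → ℝ) (u : Fin 3 → ι → ℝ → ℝ)
    (l : ι → ℝ → ℝ) (psi : V3 → ℝ) (g : ℝ → ℝ) (P' : (V3 → ℝ) → Prop),
    (∀ a, Mod S.Lam S.I mu (u a)) → Mod S.Lam S.I mu l →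
    (∀ i t, ∑ k, S.kap i k * u k i t = 0) → ContDiff ℝ ∞ psi → Qz g →
    (∀ k, P' (fun y => fderiv ℝ psi y (Pi.single k 1))) →
    ∃ (V : Fin 3 → Sm ι) (q : Sm ι) (U X : Fin 3 → Sm ι) (H : ℝ → ℝ), Qz H ∧
      (∀ k, U k ∈ Sym S.Lam S.I mu P' Qz) ∧
      (∀ k, X k ∈ Sym S.Lam S.I mu P' Qz) ∧
      (∀ i z, q.1 i z = (S.N i)⁻¹ * (l i z.1 * psi z.2.1 * H z.2.2)) ∧
      (∀ k i z, (V k).1 i z = u k i z.1 * psi z.2.1 * g z.2.2 + (S.N i)⁻¹ * (U k).1 i z) ∧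
      (∑ k, S.ks k * V k = S.Nis * ∑ k, S.ks k * U k) ∧
      (∑ k, S.D k (V k) = 0) ∧
      ∀ a i z, (S.L V q a).1 i z = (∑ b, S.G a b i z.1 * deriv (u b i) z.1
        + ∑ b, S.B a b i z.1 * u b i z.1 + l i z.1 * S.kap i a) * psi z.2.1 * g z.2.2
        + (S.N i)⁻¹ * (X a).1 i z

/-- D4: solving away an oscillating error. -/
def claimD4 : Prop := ∀ (ι : Type) (S : Data ι) (j : ℕ) (r : Fin 3 → Sm ι),
    (∀ a, r a ∈ S.Kz j) →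
    ∃ (V : Fin 3 → Sm ι) (q s : Sm ι), (∀ k, V k ∈ S.K j) ∧ q ∈ S.K j ∧ s ∈ S.K j ∧
      (∑ k, S.ks k * V k = S.Nis * s) ∧ (∑ k, S.D k (V k) = 0) ∧
      ∀ a, S.L V q a + r a ∈ S.K (j + 1)

/-- D5: the first approximation. -/
def claimD5 : Prop := ∀ (ι : Type) (S : Data ι) (chi : V3 → ℝ) (h : ℝ → ℝ), Pb chi →
    (∀ y, ‖y‖ < 1 / 2 → chi y = 1) → Qz h →
    ∃ (V : Fin 3 → Sm ι) (q s : Sm ι), (∀ k, V k ∈ S.O 0) ∧ q ∈ S.O 0 ∧ s ∈ S.K 0 ∧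
      (∑ k, S.ks k * V k = S.Nis * s) ∧ (∑ k, S.D k (V k) = 0) ∧
      (∀ k l, dy l (V k) ∈ S.K 0) ∧ (∀ a, S.L V q a ∈ S.K 1) ∧
      ∀ k i z, ‖z.2.1‖ < 1 / 2 → (V k).1 i z = (S.N i)⁻¹ * S.v k i z.1 * h z.2.2

/-- D6: algebra of the quadratic operator. -/
def claimD6 : Prop := ∀ (ι : Type) (S : Data ι) (V V' : Fin 3 → Sm ι) (q q' s : Sm ι),
    (∑ k, S.ks k * V k = S.Nis * s) → S.Ns * S.Nis = 1 →
    (∀ k f, S.D k f = dy k f + S.Ns * S.ks k * dth f) →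
    (∀ f, ∑ k, V k * S.D k f = ∑ k, V k * dy k f + s * dth f) ∧
    (∀ a, S.E V q a = S.L V q a + ∑ b, S.Gs a b * ∑ k, V k * S.D k (V b)) ∧
    (∀ a, S.E (fun k => V k + V' k) (q + q') a = S.E V q a + S.L V' q' a
      + ∑ b, S.Gs a b * (∑ k, V k * S.D k (V' b) + ∑ k, V' k * S.D k (V b)
        + ∑ k, V' k * S.D k (V' b)))

/-- D7: the expansion with `J` correctors. -/
def claimD7 : Prop := ∀ (ι : Type) (S : Data ι) (chi : V3 → ℝ) (h : ℝ → ℝ), Pb chi →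
    (∀ y, ‖y‖ < 1 / 2 → chi y = 1) → Qz h → ∀ J : ℕ,
    ∃ (V : Fin 3 → Sm ι) (q s : Sm ι) (m o : Fin 3 → Sm ι),
      (∀ k, V k ∈ S.O 0) ∧ q ∈ S.O 0 ∧ s ∈ S.O 0 ∧ (∑ k, S.ks k * V k = S.Nis * s) ∧
      (∑ k, S.D k (V k) = 0) ∧ (∀ a, m a ∈ S.Km 1) ∧ (∀ a, o a ∈ S.Kz (J + 1)) ∧
      (∀ a, S.E V q a = m a + o a) ∧
      ∀ k i z, ‖z.2.1‖ < 1 / 2 → (V k).1 i z = (S.N i)⁻¹ * S.v k i z.1 * h z.2.2

/-- D8: switching on. -/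
def claimD8 : Prop := ∀ (ι : Type) (S : Data ι) (J : ℕ) (h : ℝ → ℝ) (b sig : ι → ℝ)
    (eta : ι → ℝ → ℝ) (V : Fin 3 → Sm ι) (q s : Sm ι) (m o : Fin 3 → Sm ι),
    (∀ k, V k ∈ S.O 0) → q ∈ S.O 0 → s ∈ S.O 0 → (∑ k, S.ks k * V k = S.Nis * s) →
    (∑ k, S.D k (V k) = 0) → (∀ a, m a ∈ S.Km 1) → (∀ a, o a ∈ S.Kz (J + 1)) →
    (∀ a, S.E V q a = m a + o a) →
    (∀ k i z, ‖z.2.1‖ < 1 / 2 → (V k).1 i z = (S.N i)⁻¹ * S.v k i z.1 * h z.2.2) →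
    (∀ i, 0 ≤ b i) → (∀ i, ∀ t ∈ S.I i, t ≤ sig i → S.p i t ≤ b i) →
    Mod S.Lam S.I (fun _ _ => 1) eta →
    Mod S.Lam S.I (fun i t => if t ≤ sig i then 1 else 0) (fun i t => deriv (eta i) t) →
    Mod S.Lam S.I (fun i t => if t ≤ sig i then 1 else 0)
      (fun i t => eta i t * eta i t - eta i t) →
    ∃ (V' : Fin 3 → Sm ι) (q' : Sm ι) (m' o' : Fin 3 → Sm ι),
      (∀ k, V' k ∈ Sym S.Lam S.I (fun _ _ => 1) Pb Qp) ∧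
      q' ∈ Sym S.Lam S.I (fun _ _ => 1) Pb Qp ∧
      (∑ k, S.D k (V' k) = 0) ∧
      (∀ a, m' a ∈ Sym S.Lam S.I (fun i _ => (1 + S.a i) ^ 2 * (S.N i ^ 2)⁻¹) Pb Q1) ∧
      (∀ a, o' a ∈ Sym S.Lam S.I (fun i _ => b i + ((1 + S.a i) / S.N i) ^ J) Pb Qp) ∧
      (∀ a, S.E V' q' a = m' a + o' a) ∧
      (∀ i t z, eta i t = 0 → z.1 = t → (∀ k, (V' k).1 i z = 0) ∧ q'.1 i z = 0) ∧
      ∀ k i z, ‖z.2.1‖ < 1 / 2 →
        (V' k).1 i z = eta i z.1 * ((S.N i)⁻¹ * S.v k i z.1 * h z.2.2)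

/-! ## T: from Eulerian to Lagrangian data -/

/-- The window. -/
def Lev.I {ι : Type} (S : Lev ι) (i : ι) : Set ℝ := Icc (S.s i) (S.e i + S.del i)

/-- T1: inverse of a moderate coefficient. -/
def claimT1 : Prop := ∀ (ι : Type) (Lam : ι → ℝ) (I : ι → Set ℝ) (c : ι → ℝ → ℝ),
    (∀ i, 2 ≤ Lam i) → Mod Lam I (fun _ _ => 1) c → (∀ i t, c i t ≠ 0) →
    (∃ n : ℕ, ∀ i, ∀ t ∈ I i, |(c i t)⁻¹| ≤ Lam i ^ n) →
    Mod Lam I (fun _ _ => 1) (fun i t => (c i t)⁻¹)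

/-- T2: bootstrapping for linear ODEs. -/
def claimT2 : Prop := ∀ (ι : Type) (Lam : ι → ℝ) (I : ι → Set ℝ) (mu : ι → ℝ → ℝ)
    (A : Fin 3 → Fin 3 → ι → ℝ → ℝ) (X r : Fin 3 → ι → ℝ → ℝ),
    (∀ i, 2 ≤ Lam i) → (∀ j k, Mod Lam I (fun _ _ => 1) (A j k)) →
    (∀ j, Mod Lam I mu (r j)) → (∀ i t, 0 ≤ mu i t) → (∀ j i, ContDiff ℝ ∞ (X j i)) →
    (∀ j i t, HasDerivAt (X j i) (∑ k, A j k i t * X k i t + r j i t) t) →
    (∃ n : ℕ, ∀ j i, ∀ t ∈ I i, |X j i t| ≤ Lam i ^ n * mu i t) →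
    ∀ j, Mod Lam I mu (X j)

/-- T3: global solutions of linear ODEs with smooth coefficients. -/
def claimT3 : Prop := ∀ (A : ℝ → Matrix (Fin 3) (Fin 3) ℝ) (r : ℝ → V3) (t0 : ℝ) (x0 : V3),
    (∀ j k, ContDiff ℝ ∞ (fun t => A t j k)) → ContDiff ℝ ∞ r →
    ∃ X : ℝ → V3, ContDiff ℝ ∞ X ∧ X t0 = x0 ∧ ∀ t, HasDerivAt X (A t *ᵥ X t + r t) t

/-- T4: elementary consequences of the hypotheses of `Lev`. -/
def claimT4 : Prop := ∀ (ι : Type) (S : Lev ι),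
    (∀ i t, S.Fi i t * S.F i t = 1) ∧
    (∀ i t, S.K i t = (S.Fi i t)ᵀ *ᵥ S.kap i) ∧
    (∀ i t, 0 < S.K i t ⬝ᵥ S.K i t) ∧
    (∀ i t, HasDerivAt (S.K i) (- ((S.M i t)ᵀ *ᵥ S.K i t)) t) ∧
    (∀ i, ContDiff ℝ ∞ (S.K i)) ∧ (∀ i, ContDiff ℝ ∞ (S.w i)) ∧
    (∀ i t j k, HasDerivAt (fun t => S.Fi i t j k) (- (S.Fi i t * S.M i t) j k) t) ∧
    (∀ j, Mod S.Lam S.I (fun _ _ => 1) (fun i t => S.K i t j)) ∧
    Mod S.Lam S.I (fun _ _ => 1) (fun i t => (S.K i t ⬝ᵥ S.K i t)⁻¹)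

/-- T5: the corrector equation in Eulerian form. -/
def claimT5 : Prop := ∀ (ι : Type) (S : Lev ι) (mu : ι → ℝ) (r : Fin 3 → ι → ℝ → ℝ),
    (∀ i, 0 ≤ mu i) → (∀ a, Mod S.Lam S.I (fun i t => mu i * S.p i t) (r a)) →
    ∃ (X : ι → ℝ → V3) (l : ι → ℝ → ℝ),
      (∀ a, Mod S.Lam S.I (fun i t => mu i * S.p i t) (fun i t => X i t a)) ∧
      Mod S.Lam S.I (fun i t => mu i * S.p i t) l ∧
      (∀ i t, S.K i t ⬝ᵥ X i t = 0) ∧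
      ∀ i t a, HasDerivAt (fun t => X i t a)
        (- (S.M i t *ᵥ X i t) a - l i t * S.K i t a + r a i t) t

/-- The relation between Eulerian and Lagrangian data. -/
structure Rel {ι : Type} (S : Lev ι) (T : Data ι) : Prop where
  Lam : T.Lam = S.Lam
  I : T.I = S.I
  N : T.N = fun i => S.Nf i * S.rho i
  a : T.a = S.a
  p : T.p = S.p
  kap : T.kap = S.kap
  G : ∀ i t, (Matrix.of fun j k => T.G j k i t) = (S.F i t)ᵀ * S.F i t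
  B : ∀ i t, (Matrix.of fun j k => T.B j k i t) = (2 : ℝ) • ((S.F i t)ᵀ * S.M i t * S.F i t)
  v : ∀ i t, (fun j => T.v j i t) = S.Fi i t *ᵥ S.w i t

/-- T6: the Lagrangian data. -/
def claimT6 : Prop := ∀ (ι : Type) (S : Lev ι), ∃ T : Data ι, Rel S T

/-! ## R: realization in physical variables -/

/-- The change of variables `(t, x) ↦ (t, y, θ)`. -/
noncomputable def Phi {ι : Type} (S : Lev ι) (i : ι) (z : ℝ × V3) : Z :=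
  (z.1, (S.rho i)⁻¹ • (S.Fi i z.1 *ᵥ z.2), S.Nf i * (S.K i z.1 ⬝ᵥ z.2))

/-- R1: chain rule. -/
def claimR1 : Prop := ∀ (ι : Type) (S : Lev ι) (T : Data ι), Rel S T → ∀ (f : Sm ι) (i : ι),
    ContDiff ℝ ∞ (Phi S i) ∧
    (∀ t x j, HasFDerivAt (fun y => f.1 i (Phi S i (t, y)))
      (fderiv ℝ (fun y => f.1 i (Phi S i (t, y))) x) x ∧
      fderiv ℝ (fun y => f.1 i (Phi S i (t, y))) x (Pi.single j 1) =
        (S.rho i)⁻¹ * ∑ k, S.Fi i t k j * (T.D k f).1 i (Phi S i (t, x))) ∧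
    (∀ t x, HasDerivAt (fun τ => f.1 i (Phi S i (τ, x)))
      ((dt f).1 i (Phi S i (t, x)) - (S.rho i)⁻¹ *
        ∑ k, (S.Fi i t *ᵥ (S.M i t *ᵥ x)) k * (T.D k f).1 i (Phi S i (t, x))) t)

/-- The physical velocity and pressure of a symbol. -/
noncomputable def vel {ι : Type} (S : Lev ι) (V : Fin 3 → Sm ι) (i : ι) (t : ℝ) (x : V3) : V3 :=
  fun j => S.rho i * ∑ b, S.F i t j b * (V b).1 i (Phi S i (t, x))

/-- The physical pressure of a symbol. -/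
noncomputable def prs {ι : Type} (S : Lev ι) (q : Sm ι) (i : ι) (t : ℝ) (x : V3) : ℝ :=
  S.rho i ^ 2 * q.1 i (Phi S i (t, x))

/-- The physical force of a symbol. -/
noncomputable def frc {ι : Type} (S : Lev ι) (E : Fin 3 → Sm ι) (i : ι) (t : ℝ) (x : V3) : V3 :=
  fun j => S.rho i * ∑ b, S.Fi i t b j * (E b).1 i (Phi S i (t, x))

/-- R2: the Euler equation in physical variables. -/
def claimR2 : Prop := ∀ (ι : Type) (S : Lev ι) (T : Data ι), Rel S T →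
    ∀ (V : Fin 3 → Sm ι) (q : Sm ι) (i : ι) (t : ℝ) (x : V3),
    (∀ j, deriv (fun τ => vel S V i τ x j) t
        + ∑ k, (S.M i t *ᵥ x) k * fderiv ℝ (fun y => vel S V i t y j) x (Pi.single k 1)
        + (S.M i t *ᵥ vel S V i t x) j
        + ∑ k, vel S V i t x k * fderiv ℝ (fun y => vel S V i t y j) x (Pi.single k 1)
        + fderiv ℝ (fun y => prs S q i t y) x (Pi.single j 1)
        = frc S (T.E V q) i t x j) ∧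
    ∑ k, fderiv ℝ (fun y => vel S V i t y k) x (Pi.single k 1) =
      (∑ k, T.D k (V k)).1 i (Phi S i (t, x))

/-- R3: supports and smoothness. -/
def claimR3 : Prop := ∀ (ι : Type) (S : Lev ι) (mu : ι → ℝ → ℝ) (Q : (ℝ → ℝ) → Prop) (f : Sm ι),
    f ∈ Sym S.Lam S.I mu Pb Q →
    (∀ i, ContDiff ℝ ∞ (fun z : ℝ × V3 => f.1 i (Phi S i z))) ∧
    (∀ i t x, S.rho i ≤ ‖S.Fi i t *ᵥ x‖ → f.1 i (Phi S i (t, x)) = 0) ∧
    (∀ i, ∀ t ∈ S.I i, ∀ x, S.R i < ‖x‖ → S.rho i < ‖S.Fi i t *ᵥ x‖) ∧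
    ∀ i, ∀ t ∈ S.I i, ∀ x, S.R i < ‖x‖ →
      ∀ᶠ z in nhds ((t, x) : ℝ × V3), S.rho i < ‖S.Fi i z.1 *ᵥ z.2‖

/-- R4: bounds for symbols in physical variables. -/
def claimR4 : Prop := ∀ (ι : Type) (S : Lev ι) (mu : ι → ℝ) (f : Sm ι), (∀ i, 0 ≤ mu i) →
    (f ∈ Sym S.Lam S.I (fun i _ => mu i) Pb Q1 →
      Bd S.Lam (fun i => S.I i ×ˢ Metric.closedBall (0 : V3) 1) (fun _ => 1) mu
        (fun i z => f.1 i (Phi S i z))) ∧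
    (f ∈ Sym S.Lam S.I (fun i _ => mu i) Pb Qp →
      Bd S.Lam (fun i => S.I i ×ˢ Metric.closedBall (0 : V3) 1) (fun i => S.Nf i * S.rho i) mu
        (fun i z => f.1 i (Phi S i z)))

end Pool.Agent.Work.MP_b0497c_an.Forced.W
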