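import Pool.Agent.Work.MP_b0497c_an.Forced.W.StmtsA

set_option autoImplicit false

open scoped ContDiff
open Set

namespace Pool.Agent.Work.MP_b0497c_an.Forced.W

namespace I4

/-- Composition with a continuous linear map of norm at most one. -/
theorem norm_comp_right_le {E F G : Type} [NormedAddCommGroup E] [NormedSpace ℝ E]
    [NormedAddCommGroup F] [NormedSpace ℝ F] [NormedAddCommGroup G] [NormedSpace ℝ G]
    (g : G →L[ℝ] E) (hg : ‖g‖ ≤ 1) (f : E → F) (hf : ContDiff ℝ ∞ f) (x : G) (m : ℕ) :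
    ‖iteratedFDeriv ℝ m (fun z => f (g z)) x‖ ≤ ‖iteratedFDeriv ℝ m f (g x)‖ := by
  have h1 : iteratedFDeriv ℝ m (f ∘ g) x =
      (iteratedFDeriv ℝ m f (g x)).compContinuousLinearMap fun _ => g :=
    g.iteratedFDeriv_comp_right hf x (i := m) (by exact_mod_cast le_top)
  have h2 : iteratedFDeriv ℝ m (fun z => f (g z)) x =
      (iteratedFDeriv ℝ m f (g x)).compContinuousLinearMap fun _ => g := h1
  rw [h2]
  refine (ContinuousMultilinearMap.norm_compContinuousLinearMap_le _ _).trans ?_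
  have h3 : ∏ _i : Fin m, ‖g‖ ≤ 1 := by
    rw [Finset.prod_const]
    exact pow_le_one₀ (norm_nonneg _) hg
  calc _ ≤ ‖iteratedFDeriv ℝ m f (g x)‖ * 1 :=
        mul_le_mul_of_nonneg_left h3 (norm_nonneg _)
    _ = _ := mul_one _

/-- Iterated derivatives of the identity at points of size at most one. -/
theorem abs_iteratedDeriv_id (m : ℕ) (x : ℝ) (hx : |x| ≤ 1) :
    |iteratedDeriv m (fun y : ℝ => y) x| ≤ 1 := by
  rcases m with _ | m
  · simpa using hx
  · rw [iteratedDeriv_succ']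
    have h : deriv (fun y : ℝ => y) = fun _ => (1 : ℝ) := by
      funext y
      simp
    rw [h]
    rcases m with _ | m
    · simp
    · rw [iteratedDeriv_succ']
      have h2 : deriv (fun _ : ℝ => (1 : ℝ)) = fun _ => (0 : ℝ) := by
        funext y
        simp
      rw [h2]
      have h3 : iteratedDeriv m (fun _ : ℝ => (0 : ℝ)) x = 0 := by
        have : iteratedDeriv m (0 : ℝ → ℝ) x = 0 := by
          induction m with
          | zero => simp
          | succ m ih =>
            rw [iteratedDeriv_succ']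
            have h4 : deriv (0 : ℝ → ℝ) = 0 := by
              funext y
              simp
            rw [h4]
            exact ih
        exact this
      rw [h3]
      simp

/-- Linear functionals of norm at most one, at points where they are of size at most one. -/
theorem norm_iter_lin_le {G : Type} [NormedAddCommGroup G] [NormedSpace ℝ G]
    (g : G →L[ℝ] ℝ) (hg : ‖g‖ ≤ 1) (x : G) (hx : |g x| ≤ 1) (m : ℕ) :
    ‖iteratedFDeriv ℝ m (fun z => g z) x‖ ≤ 1 := by
  refine (norm_comp_right_le g hg (fun y : ℝ => y) contDiff_id x m).trans ?_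
  rw [norm_iteratedFDeriv_eq_norm_iteratedDeriv, Real.norm_eq_abs]
  exact abs_iteratedDeriv_id m _ hx

end I4

theorem prfI4 : claimI4 := by
  intro ι E _ _ Lam I Om mu c hLam hOm hc
  refine ⟨fun i => (hc.1 i).comp contDiff_fst, fun m => ?_⟩
  obtain ⟨n, hn⟩ := hc.2 m
  refine ⟨n, fun i z hz => ?_⟩
  have h1 := I4.norm_comp_right_le (ContinuousLinearMap.fst ℝ ℝ E)
    (ContinuousLinearMap.norm_fst_le ..) (c i) (hc.1 i) z m
  have h2 : ‖iteratedFDeriv ℝ m (c i) z.1‖ ≤ Lam i ^ n * mu i := by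
    rw [norm_iteratedFDeriv_eq_norm_iteratedDeriv, Real.norm_eq_abs]
    exact hn i z.1 (hOm i z hz)
  calc ‖iteratedFDeriv ℝ m (fun z : ℝ × E => c i z.1) z‖
      ≤ ‖iteratedFDeriv ℝ m (c i) z.1‖ := h1
    _ ≤ Lam i ^ n * mu i := h2
    _ = Lam i ^ n * (1 : ℝ) ^ m * mu i := by rw [one_pow, mul_one]

namespace I4

/-- The coordinate functional `z ↦ z.2 k`. -/
noncomputable def co (k : Fin 3) : (ℝ × V3) →L[ℝ] ℝ :=
  (ContinuousLinearMap.proj (R := ℝ) (φ := fun _ : Fin 3 => ℝ) k).comp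
    (ContinuousLinearMap.snd ℝ ℝ V3)

theorem co_apply (k : Fin 3) (z : ℝ × V3) : co k z = z.2 k := rfl

theorem norm_co_le (k : Fin 3) : ‖co k‖ ≤ 1 := by
  refine ContinuousLinearMap.opNorm_le_bound _ zero_le_one fun z => ?_
  rw [one_mul, co_apply]
  exact (norm_le_pi_norm z.2 k).trans (norm_snd_le z)

theorem bd_co {ι : Type} (Lam : ι → ℝ) (I : ι → Set ℝ) (k : Fin 3) :
    Bd Lam (fun i => I i ×ˢ Metric.closedBall (0 : V3) 1) (fun _ => 1) (fun _ => 1)
      (fun _ z => z.2 k) := by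
  refine ⟨fun i => (co k).contDiff, fun m => ⟨0, fun i z hz => ?_⟩⟩
  have hz2 : ‖z.2‖ ≤ 1 := by
    have := hz.2
    rwa [mem_closedBall_zero_iff] at this
  have h1 : |co k z| ≤ 1 := by
    rw [co_apply, ← Real.norm_eq_abs]
    exact (norm_le_pi_norm z.2 k).trans hz2
  have h2 := norm_iter_lin_le (co k) (norm_co_le k) z h1 m
  calc ‖iteratedFDeriv ℝ m (fun z : ℝ × V3 => z.2 k) z‖ ≤ 1 := h2
    _ = Lam i ^ 0 * (1 : ℝ) ^ m * 1 := by simp

end I4

theorem prfI5 (hI1 : claimI1) (hI4 : claimI4) : claimI5 := by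
  intro ι Lam I mu c hLam hmu hc
  have hterm : ∀ k : Fin 3, Bd Lam (fun i => I i ×ˢ Metric.closedBall (0 : V3) 1) (fun _ => 1) mu
      (fun i z => c k i z.1 * z.2 k) := by
    intro k
    have h1 : Bd Lam (fun i => I i ×ˢ Metric.closedBall (0 : V3) 1) (fun _ => 1) mu
        (fun i z => c k i z.1) :=
      hI4 ι V3 Lam I (fun i => I i ×ˢ Metric.closedBall (0 : V3) 1) mu (c k) hLam
        (fun i z hz => hz.1) (hc k)
    have h2 := (hI1 ι (ℝ × V3) Lam (fun i => I i ×ˢ Metric.closedBall (0 : V3) 1) (fun _ => 1) mu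
      (fun i z => c k i z.1) (fun i z => z.2 k) hLam (fun _ => zero_le_one) hmu h1).2.1
      (fun _ => 1) (I4.bd_co Lam I k)
    have h3 : (fun i => mu i * (fun _ : ι => (1 : ℝ)) i) = mu := by
      funext i
      simp
    rw [h3] at h2
    exact h2
  have hadd : ∀ f g : ι → (ℝ × V3) → ℝ,
      Bd Lam (fun i => I i ×ˢ Metric.closedBall (0 : V3) 1) (fun _ => 1) mu f →
      Bd Lam (fun i => I i ×ˢ Metric.closedBall (0 : V3) 1) (fun _ => 1) mu g →
      Bd Lam (fun i => I i ×ˢ Metric.closedBall (0 : V3) 1) (fun _ => 1) mu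
        (fun i z => f i z + g i z) := by
    intro f g hf hg
    exact (hI1 ι (ℝ × V3) Lam (fun i => I i ×ˢ Metric.closedBall (0 : V3) 1) (fun _ => 1) mu
      f g hLam (fun _ => zero_le_one) hmu hf).1 hg
  have h := hadd _ _ (hadd _ _ (hterm 0) (hterm 1)) (hterm 2)
  have heq : (fun (i : ι) (z : ℝ × V3) => ∑ k, c k i z.1 * z.2 k) =
      fun i z => c 0 i z.1 * z.2 0 + c 1 i z.1 * z.2 1 + c 2 i z.1 * z.2 2 := by
    funext i z
    rw [Fin.sum_univ_three]
  rw [heq]
  exact h

end Pool.Agent.Work.MP_b0497c_an.Forced.W
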