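import Pool.Agent.Work.MP_b0497c_an.Forced.W.StmtsA

set_option autoImplicit false

/-! Item J1: the envelope and the wave profile. -/

open scoped ContDiff
open Set

namespace Pool.Agent.Work.MP_b0497c_an.Forced.W

namespace J1

/-- The bump function on `V3`. -/
noncomputable def bumpV : ContDiffBump (0 : V3) := ⟨1 / 2, 1, by norm_num, by norm_num⟩

/-- The bump function on the line. -/
noncomputable def bumpR : ContDiffBump (0 : ℝ) := ⟨1 / 2, 3 / 4, by norm_num, by norm_num⟩

theorem chi_ex : ∃ chi : V3 → ℝ, Pb chi ∧ ∀ y, ‖y‖ < 1 / 2 → chi y = 1 := by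
  refine ⟨fun y => bumpV y, ⟨bumpV.contDiff, ?_⟩, ?_⟩
  · intro y hy
    apply bumpV.zero_of_le_dist
    rw [dist_zero_right]
    exact hy
  · intro y hy
    apply bumpV.one_of_mem_closedBall
    rw [mem_closedBall_zero_iff]
    exact hy.le

/-- The outer function. -/
noncomputable def b (s : ℝ) : ℝ := Real.arcsin s * bumpR s / (2 * Real.pi)

theorem bumpR_zero (s : ℝ) (hs : 3 / 4 ≤ |s|) : bumpR s = 0 := by
  apply bumpR.zero_of_le_dist
  rw [dist_zero_right, Real.norm_eq_abs]
  exact hs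

theorem b_contDiff : ContDiff ℝ ∞ b := by
  rw [contDiff_iff_contDiffAt]
  intro s
  by_cases hs : |s| < 1
  · have h1 : s ≠ -1 := by
      intro h
      rw [h] at hs
      norm_num at hs
    have h2 : s ≠ 1 := by
      intro h
      rw [h] at hs
      norm_num at hs
    have h3 : ContDiffAt ℝ ∞ Real.arcsin s := Real.contDiffAt_arcsin h1 h2
    have h4 : ContDiffAt ℝ ∞ (fun s => bumpR s) s := bumpR.contDiffAt
    exact (h3.mul h4).div_const _
  · have hev : b =ᶠ[nhds s] fun _ => 0 := by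
      have hopen : IsOpen {x : ℝ | 3 / 4 < |x|} := isOpen_lt continuous_const continuous_abs
      have hmem : s ∈ {x : ℝ | 3 / 4 < |x|} := by
        show 3 / 4 < |s|
        push Not at hs
        linarith
      filter_upwards [hopen.mem_nhds hmem] with x hx
      have hx' : 3 / 4 < |x| := hx
      show Real.arcsin x * bumpR x / (2 * Real.pi) = 0
      rw [bumpR_zero x hx'.le]
      simp
    exact contDiffAt_const.congr_of_eventuallyEq hev

theorem b_neg (s : ℝ) : b (-s) = - b s := by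
  unfold b
  rw [Real.arcsin_neg, bumpR.neg]
  ring

/-- The profile. -/
noncomputable def hh (θ : ℝ) : ℝ := b (Real.sin (2 * Real.pi * θ))

theorem hh_contDiff : ContDiff ℝ ∞ hh := by
  unfold hh
  exact b_contDiff.comp (Real.contDiff_sin.comp (contDiff_const.mul contDiff_id))

theorem hh_per (θ : ℝ) : hh (θ + 1) = hh θ := by
  unfold hh
  have : 2 * Real.pi * (θ + 1) = 2 * Real.pi * θ + 2 * Real.pi := by ring
  rw [this, Real.sin_add_two_pi]

theorem hh_neg (θ : ℝ) : hh (-θ) = - hh θ := by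
  unfold hh
  have : 2 * Real.pi * (-θ) = - (2 * Real.pi * θ) := by ring
  rw [this, Real.sin_neg, b_neg]

theorem hh_mean : ∫ θ in (0 : ℝ)..1, hh θ = 0 := by
  have h1 : ∫ θ in (0 : ℝ)..1, hh (1 - θ) = ∫ θ in (0 : ℝ)..1, hh θ := by
    rw [intervalIntegral.integral_comp_sub_left (fun θ => hh θ) 1]
    norm_num
  have h2 : ∀ θ : ℝ, hh (1 - θ) = - hh θ := by
    intro θ
    rw [← hh_neg, ← hh_per (-θ)]
    congr 1
    ring
  have h3 : ∫ θ in (0 : ℝ)..1, hh (1 - θ) = - ∫ θ in (0 : ℝ)..1, hh θ := by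
    simp_rw [h2]
    rw [intervalIntegral.integral_neg]
  linarith

theorem hh_eq (θ : ℝ) (hθ : |θ| ≤ 1 / 12) : hh θ = θ := by
  have hpi := Real.pi_pos
  obtain ⟨h1, h2⟩ := abs_le.mp hθ
  have e1 : -(Real.pi / 6) ≤ 2 * Real.pi * θ := by nlinarith
  have e2 : 2 * Real.pi * θ ≤ Real.pi / 6 := by nlinarith
  have s1 : Real.sin (2 * Real.pi * θ) ≤ 1 / 2 := by
    rw [← Real.sin_pi_div_six]
    apply Real.sin_le_sin_of_le_of_le_pi_div_two _ _ e2
    · linarith
    · linarith
  have s2 : -(1 / 2) ≤ Real.sin (2 * Real.pi * θ) := by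
    rw [← Real.sin_pi_div_six, ← Real.sin_neg]
    apply Real.sin_le_sin_of_le_of_le_pi_div_two _ _ e1
    · linarith
    · linarith
  have hb : bumpR (Real.sin (2 * Real.pi * θ)) = 1 := by
    apply bumpR.one_of_mem_closedBall
    rw [mem_closedBall_zero_iff, Real.norm_eq_abs]
    show |Real.sin (2 * Real.pi * θ)| ≤ 1 / 2
    rw [abs_le]
    exact ⟨s2, s1⟩
  unfold hh b
  rw [hb, Real.arcsin_sin (by linarith) (by linarith)]
  field_simp

end J1

theorem prfJ1 : claimJ1 :=
  ⟨J1.chi_ex, J1.hh, ⟨⟨J1.hh_contDiff, J1.hh_per⟩, J1.hh_mean⟩, J1.hh_eq⟩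

end Pool.Agent.Work.MP_b0497c_an.Forced.W
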