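import Pool.Agent.Work.MP_b0497c_an.Forced.W.StmtsB

set_option autoImplicit false

/-!
# WKB module, item R2: the Euler equation in physical variables
-/

open scoped ContDiff Matrix
open Set

namespace Pool.Agent.Work.MP_b0497c_an.Forced.W

namespace R2

/-- The algebra behind the Euler equation. -/
theorem alg (rho : ℝ) (hrho : rho ≠ 0) (F Fi M G B D : Matrix (Fin 3) (Fin 3) ℝ)
    (V tV DQ y : V3) (h1 : F * Fi = 1) (h2 : Fi * F = 1) (hG : G = Fᵀ * F)
    (hB : B = (2 : ℝ) • (Fᵀ * M * F)) :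
    rho • ((M * F) *ᵥ V + F *ᵥ (tV - rho⁻¹ • (Dᵀ *ᵥ (Fi *ᵥ y))))
      + (F * Dᵀ * Fi) *ᵥ y + M *ᵥ (rho • (F *ᵥ V)) + (F * Dᵀ * Fi) *ᵥ (rho • (F *ᵥ V))
      + rho • (Fiᵀ *ᵥ DQ)
    = rho • (Fiᵀ *ᵥ (G *ᵥ tV + B *ᵥ V + G *ᵥ (Dᵀ *ᵥ V) + DQ)) := by
  have h3 : Fiᵀ * Fᵀ = 1 := by
    rw [← Matrix.transpose_mul, h1, Matrix.transpose_one]
  have h4 : Fiᵀ * G = F := by
    rw [hG, ← Matrix.mul_assoc, h3, Matrix.one_mul]
  have h5 : Fiᵀ * B = (2 : ℝ) • (M * F) := by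
    rw [hB, Matrix.mul_smul, Matrix.mul_assoc, ← Matrix.mul_assoc, h3, Matrix.one_mul]
  have h6 : (F * Dᵀ * Fi) *ᵥ (F *ᵥ V) = F *ᵥ (Dᵀ *ᵥ V) := by
    rw [Matrix.mulVec_mulVec, Matrix.mul_assoc, h2, Matrix.mul_one, Matrix.mulVec_mulVec]
  have h7 : F *ᵥ (Dᵀ *ᵥ (Fi *ᵥ y)) = (F * Dᵀ * Fi) *ᵥ y := by
    rw [Matrix.mulVec_mulVec, Matrix.mulVec_mulVec]
  have h8 : Fiᵀ *ᵥ (G *ᵥ tV) = F *ᵥ tV := by
    rw [Matrix.mulVec_mulVec, h4]
  have h9 : Fiᵀ *ᵥ (B *ᵥ V) = (2 : ℝ) • ((M * F) *ᵥ V) := by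
    rw [Matrix.mulVec_mulVec, h5, Matrix.smul_mulVec]
  have h10 : Fiᵀ *ᵥ (G *ᵥ (Dᵀ *ᵥ V)) = F *ᵥ (Dᵀ *ᵥ V) := by
    rw [Matrix.mulVec_mulVec, h4]
  have h11 : M *ᵥ (F *ᵥ V) = (M * F) *ᵥ V := by
    rw [Matrix.mulVec_mulVec]
  rw [Matrix.mulVec_add, Matrix.mulVec_add, Matrix.mulVec_add, h8, h9, h10,
    Matrix.mulVec_sub, Matrix.mulVec_smul, Matrix.mulVec_smul, Matrix.mulVec_smul, h6, h7, h11]
  have h12 : rho * rho⁻¹ = 1 := mul_inv_cancel₀ hrho
  ext j
  simp only [Pi.add_apply, Pi.smul_apply, Pi.sub_apply, smul_eq_mul]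
  linear_combination (-((F * Dᵀ * Fi) *ᵥ y) j) * h12

/-- Evaluation of a symbol at a point, as a ring homomorphism. -/
def ev {ι : Type} (i : ι) (z : Z) : Sm ι →+* ℝ where
  toFun f := f.1 i z
  map_one' := rfl
  map_mul' _ _ := rfl
  map_zero' := rfl
  map_add' _ _ := rfl

theorem ev_apply {ι : Type} (i : ι) (z : Z) (f : Sm ι) : f.1 i z = ev i z f := rfl

end R2

/-- R2: the Euler equation in physical variables. -/
theorem prfR2 (hT4 : claimT4) (hR1 : claimR1) : claimR2 := by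
  intro ι S T hr V q i t x
  obtain ⟨h2, -⟩ := hT4 ι S
  have hrho : S.rho i ≠ 0 := (S.rho_pos i).ne'
  have hR := hR1 ι S T hr
  -- notation
  set P : Z := Phi S i (t, x) with hP
  set D : Matrix (Fin 3) (Fin 3) ℝ := Matrix.of fun k b => (T.D k (V b)).1 i P with hD
  set Vv : V3 := fun b => (V b).1 i P with hVv
  set tV : V3 := fun b => (dt (V b)).1 i P with htV
  set DQ : V3 := fun k => (T.D k q).1 i P with hDQ
  set F := S.F i t with hF
  set Fi := S.Fi i t with hFi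
  set M := S.M i t with hM
  set G : Matrix (Fin 3) (Fin 3) ℝ := Matrix.of fun j k => T.G j k i t with hG
  set B : Matrix (Fin 3) (Fin 3) ℝ := Matrix.of fun j k => T.B j k i t with hB
  have hGe : G = Fᵀ * F := hr.G i t
  have hBe : B = (2 : ℝ) • (Fᵀ * M * F) := hr.B i t
  have hvel : vel S V i t x = S.rho i • (F *ᵥ Vv) := by
    funext j
    rfl
  -- space derivatives
  have hsp : ∀ j k, fderiv ℝ (fun y => vel S V i t y j) x (Pi.single k 1) =
      (F * Dᵀ * Fi) j k := by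
    intro j k
    have h : HasFDerivAt (fun y => vel S V i t y j)
        (S.rho i • ∑ b, F j b • fderiv ℝ (fun y => (V b).1 i (Phi S i (t, y))) x) x := by
      have h1 : ∀ b ∈ (Finset.univ : Finset (Fin 3)),
          HasFDerivAt (fun y => F j b * (V b).1 i (Phi S i (t, y)))
            (F j b • fderiv ℝ (fun y => (V b).1 i (Phi S i (t, y))) x) x := by
        intro b _
        exact (((hR (V b) i).2.1 t x k).1).const_mul (F j b)
      exact (HasFDerivAt.fun_sum h1).const_mul (S.rho i)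
    rw [h.fderiv]
    have h2 : ∀ b, fderiv ℝ (fun y => (V b).1 i (Phi S i (t, y))) x (Pi.single k 1) =
        (S.rho i)⁻¹ * ∑ l, Fi l k * D l b := fun b => ((hR (V b) i).2.1 t x k).2
    simp only [_root_.smul_apply, _root_.sum_apply, h2, smul_eq_mul]
    rw [Matrix.mul_assoc]
    simp only [Matrix.mul_apply, Matrix.transpose_apply]
    rw [Finset.mul_sum]
    refine Finset.sum_congr rfl fun b _ => ?_
    have h3 : ∑ l, Fi l k * D l b = ∑ l, D l b * Fi l k :=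
      Finset.sum_congr rfl fun l _ => mul_comm _ _
    rw [h3]
    field_simp
  refine ⟨fun j => ?_, ?_⟩
  · -- time derivative
    have htd : HasDerivAt (fun τ => vel S V i τ x j)
        ((S.rho i • ((M * F) *ᵥ Vv + F *ᵥ (tV - (S.rho i)⁻¹ • (Dᵀ *ᵥ (Fi *ᵥ (M *ᵥ x)))))) j) t := by
      have h1 : ∀ b ∈ (Finset.univ : Finset (Fin 3)),
          HasDerivAt (fun τ => S.F i τ j b * (V b).1 i (Phi S i (τ, x)))
            ((M * F) j b * Vv b + F j b * (tV - (S.rho i)⁻¹ • (Dᵀ *ᵥ (Fi *ᵥ (M *ᵥ x)))) b) t := by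
        intro b _
        have h2 := (hR (V b) i).2.2 t x
        have h3 := (S.F_deriv i t j b).mul h2
        refine h3.congr_deriv ?_
        have h4 : (tV - (S.rho i)⁻¹ • (Dᵀ *ᵥ (Fi *ᵥ (M *ᵥ x)))) b =
            (dt (V b)).1 i (Phi S i (t, x)) - (S.rho i)⁻¹ *
              ∑ k, (S.Fi i t *ᵥ (S.M i t *ᵥ x)) k * (T.D k (V b)).1 i (Phi S i (t, x)) := by
          simp only [Pi.sub_apply, Pi.smul_apply, smul_eq_mul]
          congr 2
          simp only [Matrix.mulVec, dotProduct, Matrix.transpose_apply, hD, Matrix.of_apply]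
          exact Finset.sum_congr rfl fun k _ => mul_comm _ _
        rw [h4]
      have h5 := (HasDerivAt.fun_sum h1).const_mul (S.rho i)
      refine h5.congr_deriv ?_
      simp only [Pi.smul_apply, Pi.add_apply, smul_eq_mul]
      rw [Finset.sum_add_distrib]
      rfl
    have hpr : fderiv ℝ (fun y => prs S q i t y) x (Pi.single j 1) =
        (S.rho i • (Fiᵀ *ᵥ DQ)) j := by
      have h := (((hR q i).2.1 t x j).1).const_mul (S.rho i ^ 2)
      have h' : fderiv ℝ (fun y => prs S q i t y) x =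
          S.rho i ^ 2 • fderiv ℝ (fun y => q.1 i (Phi S i (t, y))) x := h.fderiv
      rw [h', _root_.smul_apply, ((hR q i).2.1 t x j).2, smul_eq_mul]
      simp only [Pi.smul_apply, Matrix.mulVec, dotProduct, Matrix.transpose_apply, smul_eq_mul]
      have h3 : S.rho i ^ 2 * ((S.rho i)⁻¹ *
          ∑ k, S.Fi i t k j * (T.D k q).1 i (Phi S i (t, x))) =
          S.rho i * ∑ k, S.Fi i t k j * (T.D k q).1 i (Phi S i (t, x)) := by
        field_simp
      rw [h3]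
    have hfr : frc S (T.E V q) i t x j =
        (S.rho i • (Fiᵀ *ᵥ (G *ᵥ tV + B *ᵥ Vv + G *ᵥ (Dᵀ *ᵥ Vv) + DQ))) j := by
      show S.rho i * ∑ b, S.Fi i t b j * (T.E V q b).1 i P = _
      simp only [Pi.smul_apply, Matrix.mulVec, dotProduct, Matrix.transpose_apply, smul_eq_mul,
        Pi.add_apply]
      congr 1
      refine Finset.sum_congr rfl fun b _ => ?_
      rw [R2.ev_apply]
      simp only [Data.E, EE, map_add, map_sum, map_mul]
      rw [Finset.sum_congr rfl fun c _ => congrArg _ (Finset.sum_congr rfl fun k _ => mul_comm _ _)]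
      rfl
    have key := congrFun (R2.alg (S.rho i) hrho F Fi M G B D Vv tV DQ (M *ᵥ x) (S.F_Fi i t)
      (h2 i t) hGe hBe) j
    rw [htd.deriv, hpr, hfr, ← key, hvel]
    simp only [hsp]
    simp only [Pi.add_apply]
    have e1 : ∑ k, (M *ᵥ x) k * (F * Dᵀ * Fi) j k = ((F * Dᵀ * Fi) *ᵥ (M *ᵥ x)) j := by
      simp only [Matrix.mulVec, dotProduct]
      exact Finset.sum_congr rfl fun k _ => mul_comm _ _
    have e2 : ∑ k, (S.rho i • (F *ᵥ Vv)) k * (F * Dᵀ * Fi) j k =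
        ((F * Dᵀ * Fi) *ᵥ (S.rho i • (F *ᵥ Vv))) j := by
      rw [Matrix.mulVec, dotProduct]
      exact Finset.sum_congr rfl fun k _ => mul_comm _ _
    rw [e1, e2]
    
  · simp only [hsp]
    have e1 : ∑ k, (F * Dᵀ * Fi) k k = (F * Dᵀ * Fi).trace := rfl
    rw [e1, Matrix.mul_assoc, Matrix.trace_mul_comm, Matrix.mul_assoc, h2 i t, Matrix.mul_one,
      Matrix.trace_transpose, R2.ev_apply, map_sum]
    rfl

end Pool.Agent.Work.MP_b0497c_an.Forced.W
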