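import Pool.Agent.Work.MP_b0497c_an.Forced.W.StmtsB

set_option autoImplicit false

/-!
# WKB module, item R4: bounds for symbols in physical variables
-/

open scoped ContDiff Matrix
open Set

namespace Pool.Agent.Work.MP_b0497c_an.Forced.W

namespace R4

/-- the set on which bounds are claimed -/
abbrev Om {ι : Type} (S : Lev ι) (i : ι) : Set (ℝ × V3) :=
  S.I i ×ˢ Metric.closedBall (0 : V3) 1

theorem bd_zero {ι E : Type} [NormedAddCommGroup E] [NormedSpace ℝ E] (Lam : ι → ℝ)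
    (O : ι → Set E) (N mu : ι → ℝ) (hL : ∀ i, 2 ≤ Lam i) (hN : ∀ i, 0 ≤ N i)
    (hmu : ∀ i, 0 ≤ mu i) : Bd Lam O N mu (fun (_ : ι) (_ : E) => (0 : ℝ)) := by
  refine ⟨fun i => contDiff_const, fun m => ⟨0, fun i z _ => ?_⟩⟩
  have h : iteratedFDeriv ℝ m (fun _ : E => (0 : ℝ)) z = 0 := by
    have := iteratedFDeriv_zero_fun (𝕜 := ℝ) (E := E) (F := ℝ) (n := m)
    exact congrFun this z
  rw [h, norm_zero]
  have h1 := hN i
  have h2 := hmu i
  have h3 : 0 ≤ Lam i := by linarith [hL i]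
  positivity

/-- span induction for bounds -/
theorem span_bd (hI1 : claimI1) {ι : Type} (S : Lev ι) (mu : ι → ℝ) (N : ι → ℝ)
    (hmu : ∀ i, 0 ≤ mu i) (hN : ∀ i, 0 ≤ N i) (Q : (ℝ → ℝ) → Prop)
    (h : ∀ (f : Sm ι) (c : ι → ℝ → ℝ) (psi : V3 → ℝ) (g : ℝ → ℝ),
      Mod S.Lam S.I (fun i _ => mu i) c → Pb psi → Q g →
      (∀ i z, f.1 i z = c i z.1 * psi z.2.1 * g z.2.2) →
      Bd S.Lam (Om S) N mu (fun i z => f.1 i (Phi S i z)))
    (f : Sm ι) (hf : f ∈ Sym S.Lam S.I (fun i _ => mu i) Pb Q) :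
    Bd S.Lam (Om S) N mu (fun i z => f.1 i (Phi S i z)) := by
  unfold Sym at hf
  induction hf using Submodule.span_induction with
  | mem x hx =>
    obtain ⟨c, psi, g, hc, hpsi, hg, hx⟩ := hx
    exact h x c psi g hc hpsi hg hx
  | zero =>
    exact bd_zero S.Lam (Om S) N mu S.two_le_Lam hN hmu
  | add x y _ _ hx hy =>
    exact (hI1 ι (ℝ × V3) S.Lam (Om S) N mu _ _ S.two_le_Lam hN hmu hx).1 hy
  | smul r x _ hx =>
    exact (hI1 ι (ℝ × V3) S.Lam (Om S) N mu _ (fun _ _ => 0) S.two_le_Lam hN hmu hx).2.2.1 r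

theorem Nf_pos {ι : Type} (S : Lev ι) (i : ι) : 0 < S.Nf i := by
  have h1 := S.a_le i
  have h2 := S.a_nonneg i
  have h3 := S.rho_pos i
  by_contra h
  have : S.Nf i * S.rho i ≤ 0 := mul_nonpos_of_nonpos_of_nonneg (not_lt.1 h) h3.le
  linarith

theorem one_le_N {ι : Type} (S : Lev ι) (i : ι) : 1 ≤ S.Nf i * S.rho i := by
  have h1 := S.a_le i
  have h2 := S.a_nonneg i
  linarith

/-- the Lagrangian position -/
theorem bd_y (hA1 : claimA1) (hA3 : claimA3) (hI5 : claimI5) (hI6 : claimI6) {ι : Type}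
    (S : Lev ι) : Bd S.Lam (Om S) (fun _ => 1) (fun _ => 1)
      (fun i (z : ℝ × V3) => (S.rho i)⁻¹ • (S.Fi i z.1 *ᵥ z.2)) := by
  apply hI6 ι (ℝ × V3) S.Lam (Om S) (fun _ => 1) (fun _ => 1) _ S.two_le_Lam
    (fun _ => zero_le_one) (fun _ => zero_le_one)
  intro k
  have hmod : ∀ j : Fin 3, Mod S.Lam S.I (fun _ _ => 1)
      (fun i t => (S.rho i)⁻¹ * S.Fi i t k j) := by
    intro j
    have h1 : Mod S.Lam S.I (fun _ _ => 1) (fun i _ => (S.rho i)⁻¹) := by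
      apply hA3 ι S.Lam S.I (fun _ _ => 1) (fun i => (S.rho i)⁻¹) S.two_le_Lam
      obtain ⟨n, hn⟩ := S.rho_inv
      refine ⟨n, fun i t _ => ?_⟩
      rw [abs_of_pos (inv_pos.2 (S.rho_pos i)), mul_one]
      exact hn i
    have h2 := hA1 ι S.Lam S.I (fun _ _ => 1) (fun _ _ => 1) _ _ S.two_le_Lam h1 (S.mod_Fi k j)
    simpa only [mul_one] using h2
  have h := hI5 ι S.Lam S.I (fun _ => 1) (fun j i t => (S.rho i)⁻¹ * S.Fi i t k j) S.two_le_Lam
    (fun _ => zero_le_one) hmod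
  have e : (fun i (z : ℝ × V3) => ((S.rho i)⁻¹ • (S.Fi i z.1 *ᵥ z.2)) k) =
      fun i (z : ℝ × V3) => ∑ j, (S.rho i)⁻¹ * S.Fi i z.1 k j * z.2 j := by
    funext i z
    simp only [Pi.smul_apply, smul_eq_mul, Matrix.mulVec, dotProduct, Finset.mul_sum, mul_assoc]
  rw [e]
  exact h

/-- the phase -/
theorem bd_theta (hA2 : claimA2) (hI5 : claimI5) (hT4 : claimT4) {ι : Type} (S : Lev ι) :
    Bd S.Lam (Om S) (fun _ => 1) S.Nf
      (fun i (z : ℝ × V3) => S.Nf i * (S.K i z.1 ⬝ᵥ z.2)) := by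
  have hK := (hT4 ι S).2.2.2.2.2.2.2.1
  have hmod : ∀ j : Fin 3, Mod S.Lam S.I (fun i _ => S.Nf i)
      (fun i t => S.Nf i * S.K i t j) := by
    intro j
    have h := (hA2 ι S.Lam S.I (fun _ _ => 1) _ S.two_le_Lam (hK j)).2.2.2.2 S.Nf
      (fun i => (Nf_pos S i).le)
    simpa only [mul_one] using h
  have h := hI5 ι S.Lam S.I S.Nf (fun j i t => S.Nf i * S.K i t j) S.two_le_Lam
    (fun i => (Nf_pos S i).le) hmod
  have e : (fun i (z : ℝ × V3) => S.Nf i * (S.K i z.1 ⬝ᵥ z.2)) =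
      fun i (z : ℝ × V3) => ∑ j, S.Nf i * S.K i z.1 j * z.2 j := by
    funext i z
    simp only [dotProduct, Finset.mul_sum, mul_assoc]
  rw [e]
  exact h

/-- the coefficient and the envelope -/
theorem bd_cpsi (hA1 : claimA1) (hA3 : claimA3) (hI1 : claimI1) (hI2 : claimI2) (hI3 : claimI3)
    (hI4 : claimI4) (hI5 : claimI5) (hI6 : claimI6) {ι : Type} (S : Lev ι) (mu : ι → ℝ)
    (hmu : ∀ i, 0 ≤ mu i) (c : ι → ℝ → ℝ) (psi : V3 → ℝ)
    (hc : Mod S.Lam S.I (fun i _ => mu i) c) (hpsi : Pb psi) :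
    Bd S.Lam (Om S) (fun _ => 1) mu
      (fun i (z : ℝ × V3) => c i z.1 * psi ((S.rho i)⁻¹ • (S.Fi i z.1 *ᵥ z.2))) := by
  have h1 : Bd S.Lam (Om S) (fun _ => 1) mu (fun i (z : ℝ × V3) => c i z.1) :=
    hI4 ι V3 S.Lam S.I (Om S) mu c S.two_le_Lam (fun i z hz => hz.1) hc
  have hy := bd_y hA1 hA3 hI5 hI6 S
  have h2 : Bd S.Lam (Om S) (fun _ => 1) (fun _ => 1)
      (fun i (z : ℝ × V3) => psi ((S.rho i)⁻¹ • (S.Fi i z.1 *ᵥ z.2))) := by
    apply hI2 ι (ℝ × V3) V3 S.Lam (Om S) (fun _ => 1) _ psi S.two_le_Lam (fun _ => le_refl _)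
      hpsi.1 (hI3.1 psi hpsi) hy.1
    intro m _
    obtain ⟨n, hn⟩ := hy.2 m
    refine ⟨n, fun i z hz => ?_⟩
    simpa only [mul_one] using hn i z hz
  have h3 := (hI1 ι (ℝ × V3) S.Lam (Om S) (fun _ => 1) mu _ _ S.two_le_Lam
    (fun _ => zero_le_one) hmu h1).2.1 (fun _ => 1) h2
  simpa only [mul_one] using h3

end R4

theorem prfR4 (hA1 : claimA1) (hA2 : claimA2) (hA3 : claimA3) (hI1 : claimI1) (hI2 : claimI2)
    (hI3 : claimI3) (hI4 : claimI4) (hI5 : claimI5) (hI6 : claimI6) (hT4 : claimT4) :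
    claimR4 := by
  intro ι S mu f hmu
  constructor
  · intro hf
    refine R4.span_bd hI1 S mu (fun _ => 1) hmu (fun _ => zero_le_one) Q1 ?_ f hf
    intro x c psi g hc hpsi hg hx
    have h := R4.bd_cpsi hA1 hA3 hI1 hI2 hI3 hI4 hI5 hI6 S mu hmu c psi hc hpsi
    have e : (fun i (z : ℝ × V3) => x.1 i (Phi S i z)) =
        fun i (z : ℝ × V3) => c i z.1 * psi ((S.rho i)⁻¹ • (S.Fi i z.1 *ᵥ z.2)) := by
      funext i z
      rw [hx, hg]
      simp only [Phi, mul_one]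
    rw [e]
    exact h
  · intro hf
    refine R4.span_bd hI1 S mu (fun i => S.Nf i * S.rho i) hmu
      (fun i => zero_le_one.trans (R4.one_le_N S i)) Qp ?_ f hf
    intro x c psi g hc hpsi hg hx
    have hN0 : ∀ i, 0 ≤ S.Nf i * S.rho i := fun i => zero_le_one.trans (R4.one_le_N S i)
    have h := R4.bd_cpsi hA1 hA3 hI1 hI2 hI3 hI4 hI5 hI6 S mu hmu c psi hc hpsi
    have h' : Bd S.Lam (R4.Om S) (fun i => S.Nf i * S.rho i) mu
        (fun i (z : ℝ × V3) => c i z.1 * psi ((S.rho i)⁻¹ • (S.Fi i z.1 *ᵥ z.2))) :=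
      (hI1 ι (ℝ × V3) S.Lam (R4.Om S) (fun _ => 1) mu _ (fun _ _ => 0) S.two_le_Lam
        (fun _ => zero_le_one) hmu h).2.2.2 (fun i => S.Nf i * S.rho i) mu (R4.one_le_N S)
        (fun i => le_refl _)
    have hth := R4.bd_theta hA2 hI5 hT4 S
    have h2 : Bd S.Lam (R4.Om S) (fun i => S.Nf i * S.rho i) (fun _ => 1)
        (fun i (z : ℝ × V3) => g (S.Nf i * (S.K i z.1 ⬝ᵥ z.2))) := by
      apply hI2 ι (ℝ × V3) ℝ S.Lam (R4.Om S) (fun i => S.Nf i * S.rho i) _ g S.two_le_Lam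
        (R4.one_le_N S) hg.1 (hI3.2 g hg) hth.1
      intro m hm
      obtain ⟨n, hn⟩ := hth.2 m
      obtain ⟨n', hn'⟩ := S.rho_inv
      refine ⟨n + n', fun i z hz => ?_⟩
      refine (hn i z hz).trans ?_
      have hL : 0 ≤ S.Lam i := by linarith [S.two_le_Lam i]
      have hrho := S.rho_pos i
      have e1 : S.Nf i = (S.Nf i * S.rho i) * (S.rho i)⁻¹ := by
        field_simp
      have e2 : S.Nf i * S.rho i ≤ (S.Nf i * S.rho i) ^ m := by
        calc S.Nf i * S.rho i = (S.Nf i * S.rho i) ^ 1 := (pow_one _).symm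
          _ ≤ (S.Nf i * S.rho i) ^ m := pow_le_pow_right₀ (R4.one_le_N S i) hm
      rw [one_pow, mul_one, pow_add, mul_assoc]
      apply mul_le_mul_of_nonneg_left _ (pow_nonneg hL n)
      calc S.Nf i = (S.Nf i * S.rho i) * (S.rho i)⁻¹ := e1
        _ ≤ (S.Nf i * S.rho i) ^ m * S.Lam i ^ n' :=
            mul_le_mul e2 (hn' i) (inv_nonneg.2 hrho.le) (pow_nonneg (hN0 i) m)
        _ = S.Lam i ^ n' * (S.Nf i * S.rho i) ^ m := mul_comm _ _
    have h3 := (hI1 ι (ℝ × V3) S.Lam (R4.Om S) (fun i => S.Nf i * S.rho i) mu _ _ S.two_le_Lam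
      hN0 hmu h').2.1 (fun _ => 1) h2
    have e : (fun i (z : ℝ × V3) => x.1 i (Phi S i z)) =
        fun i (z : ℝ × V3) => c i z.1 * psi ((S.rho i)⁻¹ • (S.Fi i z.1 *ᵥ z.2)) *
          g (S.Nf i * (S.K i z.1 ⬝ᵥ z.2)) := by
      funext i z
      rw [hx]
      rfl
    rw [e]
    simpa only [mul_one] using h3

end Pool.Agent.Work.MP_b0497c_an.Forced.W
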