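import Pool.Agent.Work.MP_b0497c_an.Forced.W.StmtsB

set_option autoImplicit false

/-! MP_b0497c_an, WKB module, item T3: global solutions of linear ODEs with smooth
coefficients. -/

open scoped ContDiff Matrix NNReal
open Set

namespace Pool.Agent.Work.MP_b0497c_an.Forced.W

namespace ItemT3

/-- the clamp map -/
def cl (R : ℝ) (x : V3) : V3 := fun j => max (-R) (min R (x j))

theorem cl_lip (R : ℝ) (x y : V3) : ‖cl R x - cl R y‖ ≤ ‖x - y‖ := by
  rw [pi_norm_le_iff_of_nonneg (norm_nonneg _)]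
  intro j
  have h1 : |max (-R) (min R (x j)) - max (-R) (min R (y j))| ≤ |x j - y j| := by
    refine (abs_max_sub_max_le_max _ _ _ _).trans ?_
    have h2 : |min R (x j) - min R (y j)| ≤ |x j - y j| := by
      refine (abs_min_sub_min_le_max _ _ _ _).trans ?_
      simp
    refine max_le (by simp) h2
  have h3 : ‖(x - y) j‖ ≤ ‖x - y‖ := norm_le_pi_norm (x - y) j
  exact h1.trans h3

theorem cl_eq {R : ℝ} {x : V3} (h : ‖x‖ ≤ R) : cl R x = x := by
  funext j
  have h1 : |x j| ≤ R := (norm_le_pi_norm x j).trans h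
  rw [abs_le] at h1
  simp [cl, h1.1, h1.2]

theorem cl_norm {R : ℝ} (hR : 0 ≤ R) (x : V3) : ‖cl R x‖ ≤ R := by
  rw [pi_norm_le_iff_of_nonneg hR]
  intro j
  show |max (-R) (min R (x j))| ≤ R
  rw [abs_le]
  constructor
  · exact le_max_left _ _
  · exact max_le (by linarith) (min_le_left _ _)

theorem cl_norm' (R : ℝ) (hR : 0 ≤ R) (x : V3) : ‖cl R x‖ ≤ ‖x‖ := by
  have h := cl_lip R x 0
  have h0 : cl R 0 = 0 := cl_eq (by simpa using hR)
  rw [h0] at h
  simpa using h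

theorem mulVec_norm {A : Matrix (Fin 3) (Fin 3) ℝ} {a : ℝ} (ha : ∀ j k, |A j k| ≤ a) (x : V3) :
    ‖A *ᵥ x‖ ≤ 3 * a * ‖x‖ := by
  have ha0 : 0 ≤ a := (abs_nonneg _).trans (ha 0 0)
  rw [pi_norm_le_iff_of_nonneg (by positivity)]
  intro j
  have h1 : (A *ᵥ x) j = ∑ k, A j k * x k := rfl
  rw [h1]
  refine (norm_sum_le _ _).trans ?_
  have h2 : ∀ k ∈ (Finset.univ : Finset (Fin 3)), ‖A j k * x k‖ ≤ a * ‖x‖ := by
    intro k _
    rw [norm_mul]
    exact mul_le_mul (ha j k) (norm_le_pi_norm x k) (norm_nonneg _) ha0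
  refine (Finset.sum_le_sum h2).trans ?_
  rw [Finset.sum_const, Finset.card_univ, Fintype.card_fin, nsmul_eq_mul]
  push_cast
  linarith

/-- a-priori bound -/
theorem apriori {f f' : ℝ → V3} {a b K ε R : ℝ} (hK : 0 ≤ K) (hε : 0 ≤ ε)
    (hf : ContinuousOn f (Icc a b)) (hf' : ∀ x ∈ Ico a b, HasDerivWithinAt f (f' x) (Ici x) x)
    (bound : ∀ x ∈ Ico a b, ‖f' x‖ ≤ K * ‖f x‖ + ε)
    (hR : gronwallBound ‖f a‖ K ε (b - a) ≤ R) : ∀ x ∈ Icc a b, ‖f x‖ ≤ R := by
  intro x hx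
  refine (norm_le_gronwallBound_of_norm_deriv_right_le hf hf' le_rfl bound x hx).trans ?_
  refine le_trans ?_ hR
  exact gronwallBound_mono (norm_nonneg _) hε hK (by linarith [hx.2])

/-- bound of the coefficients on a compact interval -/
theorem coef_bound {A : ℝ → Matrix (Fin 3) (Fin 3) ℝ} (hA : ∀ j k, Continuous (fun t => A t j k))
    (u v : ℝ) : ∃ a : ℝ, 0 ≤ a ∧ ∀ t ∈ Icc u v, ∀ j k, |A t j k| ≤ a := by
  have h := fun j k => (isCompact_Icc (a := u) (b := v)).exists_bound_of_continuousOn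
    (hA j k).continuousOn
  choose C hC using h
  refine ⟨∑ j, ∑ k, |C j k|, by positivity, ?_⟩
  intro t ht j k
  have h1 : |A t j k| ≤ C j k := hC j k t ht
  calc |A t j k| ≤ |C j k| := h1.trans (le_abs_self _)
    _ ≤ ∑ k, |C j k| := Finset.single_le_sum (f := fun k => |C j k|)
        (fun _ _ => abs_nonneg _) (Finset.mem_univ k)
    _ ≤ ∑ j, ∑ k, |C j k| := Finset.single_le_sum (f := fun j => ∑ k, |C j k|)
        (fun _ _ => Finset.sum_nonneg fun _ _ => abs_nonneg _) (Finset.mem_univ j)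

theorem cont_mulVec {A : ℝ → Matrix (Fin 3) (Fin 3) ℝ}
    (hA : ∀ j k, Continuous (fun t => A t j k)) {f : ℝ → V3} (hf : Continuous f) :
    Continuous (fun t => A t *ᵥ f t) := by
  refine continuous_pi fun j => ?_
  have h : (fun t => (A t *ᵥ f t) j) = fun t => ∑ k, A t j k * f t k := rfl
  rw [h]
  refine continuous_finsetSum _ fun k _ => ?_
  exact (hA j k).mul ((continuous_apply k).comp hf)

/-- local existence on an interval of arbitrary length -/
theorem loc {A : ℝ → Matrix (Fin 3) (Fin 3) ℝ} {r : ℝ → V3}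
    (hA : ∀ j k, Continuous (fun t => A t j k)) (hr : Continuous r) (t0 : ℝ) (x0 : V3) {T : ℝ}
    (hT : 0 < T) : ∃ X : ℝ → V3, X t0 = x0 ∧
      ∀ t ∈ Ioo (t0 - T) (t0 + T), HasDerivAt X (A t *ᵥ X t + r t) t := by
  obtain ⟨a, ha0, ha⟩ := coef_bound hA (t0 - T) (t0 + T)
  obtain ⟨C, hC⟩ := (isCompact_Icc (a := t0 - T) (b := t0 + T)).exists_bound_of_continuousOn
    hr.continuousOn
  have ht0 : t0 ∈ Icc (t0 - T) (t0 + T) := ⟨by linarith, by linarith⟩
  have hC0 : 0 ≤ C := (norm_nonneg _).trans (hC t0 ht0)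
  set K : ℝ := 3 * a with hK
  have hK0 : 0 ≤ K := by positivity
  set R : ℝ := gronwallBound ‖x0‖ K C T with hR
  have hmono := gronwallBound_mono (norm_nonneg x0) hC0 hK0
  have hxR : ‖x0‖ ≤ R := by
    have := hmono hT.le
    rwa [gronwallBound_x0] at this
  have hR0 : 0 ≤ R := (norm_nonneg _).trans hxR
  set L : ℝ := K * R + C with hL
  have hL0 : 0 ≤ L := by positivity
  have hLT : 0 ≤ L * T := by positivity
  have hPL : IsPicardLindelof (fun t x => A t *ᵥ cl R x + r t)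
      (⟨t0, ht0⟩ : Icc (t0 - T) (t0 + T)) x0 ⟨L * T, hLT⟩ 0 ⟨L, hL0⟩ ⟨K, hK0⟩ := by
    refine ⟨?_, ?_, ?_, ?_⟩
    · intro t ht
      apply LipschitzWith.lipschitzOnWith
      apply LipschitzWith.of_dist_le_mul
      intro x y
      rw [dist_eq_norm, dist_eq_norm]
      have e : A t *ᵥ cl R x + r t - (A t *ᵥ cl R y + r t) = A t *ᵥ (cl R x - cl R y) := by
        rw [Matrix.mulVec_sub]
        abel
      rw [e]
      refine (mulVec_norm (ha t ht) _).trans ?_
      exact mul_le_mul_of_nonneg_left (cl_lip R x y) hK0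
    · intro x _
      exact ((cont_mulVec hA continuous_const).add hr).continuousOn
    · intro t ht x _
      refine (norm_add_le _ _).trans ?_
      refine add_le_add ?_ (hC t ht)
      refine (mulVec_norm (ha t ht) _).trans ?_
      exact mul_le_mul_of_nonneg_left (cl_norm hR0 x) hK0
    · change L * max (t0 + T - t0) (t0 - (t0 - T)) ≤ L * T - 0
      have : max (t0 + T - t0) (t0 - (t0 - T)) = T := by
        rw [max_eq_left] <;> linarith
      rw [this]
      linarith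
  obtain ⟨X, hX0, hX⟩ := hPL.exists_eq_forall_mem_Icc_hasDerivWithinAt₀
  have hX0' : X t0 = x0 := hX0
  have hcont : ContinuousOn X (Icc (t0 - T) (t0 + T)) := fun t ht =>
    (hX t ht).continuousWithinAt
  have hint : ∀ t ∈ Ioo (t0 - T) (t0 + T), HasDerivAt X (A t *ᵥ cl R (X t) + r t) t :=
    fun t ht => (hX t (Ioo_subset_Icc_self ht)).hasDerivAt (Icc_mem_nhds ht.1 ht.2)
  have hb : ∀ t ∈ Icc (t0 - T) (t0 + T), ‖A t *ᵥ cl R (X t) + r t‖ ≤ K * ‖X t‖ + C := by
    intro t ht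
    refine (norm_add_le _ _).trans (add_le_add ?_ (hC t ht))
    refine (mulVec_norm (ha t ht) _).trans ?_
    exact mul_le_mul_of_nonneg_left (cl_norm' R hR0 _) hK0
  have hfw : ∀ t ∈ Icc t0 (t0 + T), ‖X t‖ ≤ R := by
    refine apriori (f := X) (f' := fun t => A t *ᵥ cl R (X t) + r t) (K := K) (ε := C) hK0 hC0
      (hcont.mono (Icc_subset_Icc (by linarith) le_rfl)) ?_ ?_ ?_
    · intro x hx
      exact (hint x ⟨by linarith [hx.1], hx.2⟩).hasDerivWithinAt
    · intro x hx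
      exact hb x ⟨by linarith [hx.1], hx.2.le⟩
    · rw [hX0']
      have : t0 + T - t0 = T := by ring
      rw [this]
  have hbw : ∀ t ∈ Icc t0 (t0 + T), ‖X (2 * t0 - t)‖ ≤ R := by
    refine apriori (f := fun t => X (2 * t0 - t))
      (f' := fun t => - (A (2 * t0 - t) *ᵥ cl R (X (2 * t0 - t)) + r (2 * t0 - t)))
      (K := K) (ε := C) hK0 hC0 ?_ ?_ ?_ ?_
    · refine hcont.comp (by fun_prop) ?_
      intro t ht
      exact ⟨by linarith [ht.2], by linarith [ht.1]⟩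
    · intro x hx
      have h1 := hint (2 * t0 - x) ⟨by linarith [hx.2], by linarith [hx.1]⟩
      have h2 : HasDerivAt (fun t : ℝ => 2 * t0 - t) (-1) x := by
        simpa using (hasDerivAt_id x).const_sub (2 * t0)
      have h3 := h1.scomp x h2
      have h4 : HasDerivAt (fun t => X (2 * t0 - t))
          (- (A (2 * t0 - x) *ᵥ cl R (X (2 * t0 - x)) + r (2 * t0 - x))) x := by
        have h5 := h3
        rw [neg_one_smul] at h5
        exact h5
      exact h4.hasDerivWithinAt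
    · intro x hx
      show ‖- (A (2 * t0 - x) *ᵥ cl R (X (2 * t0 - x)) + r (2 * t0 - x))‖ ≤ _
      rw [norm_neg]
      exact hb (2 * t0 - x) ⟨by linarith [hx.2], by linarith [hx.1]⟩
    · have e1 : 2 * t0 - t0 = t0 := by ring
      have e2 : t0 + T - t0 = T := by ring
      show gronwallBound ‖X (2 * t0 - t0)‖ K C (t0 + T - t0) ≤ R
      rw [e1, e2, hX0']
  refine ⟨X, hX0', fun t ht => ?_⟩
  have hle : ‖X t‖ ≤ R := by
    rcases le_total t0 t with h | h
    · exact hfw t ⟨h, ht.2.le⟩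
    · have h1 := hbw (2 * t0 - t) ⟨by linarith, by linarith [ht.1]⟩
      have h2 : 2 * t0 - (2 * t0 - t) = t := by ring
      rwa [h2] at h1
  have h3 := hint t ht
  rwa [cl_eq hle] at h3

/-- uniqueness -/
theorem uniq {A : ℝ → Matrix (Fin 3) (Fin 3) ℝ} {r : ℝ → V3}
    (hA : ∀ j k, Continuous (fun t => A t j k)) {t0 T : ℝ} (hT : 0 < T) {X Y : ℝ → V3}
    (h0 : X t0 = Y t0)
    (hX : ∀ t ∈ Ioo (t0 - T) (t0 + T), HasDerivAt X (A t *ᵥ X t + r t) t)
    (hY : ∀ t ∈ Ioo (t0 - T) (t0 + T), HasDerivAt Y (A t *ᵥ Y t + r t) t) :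
    EqOn X Y (Ioo (t0 - T) (t0 + T)) := by
  obtain ⟨a, ha0, ha⟩ := coef_bound hA (t0 - T) (t0 + T)
  have hK0 : 0 ≤ 3 * a := by positivity
  refine ODE_solution_unique_of_mem_Ioo (v := fun t x => A t *ᵥ x + r t) (s := fun _ => univ)
    (K := ⟨3 * a, hK0⟩) (t₀ := t0) ?_ ⟨by linarith, by linarith⟩ (fun t ht => ⟨hX t ht, mem_univ _⟩)
    (fun t ht => ⟨hY t ht, mem_univ _⟩) h0
  intro t ht
  apply LipschitzWith.lipschitzOnWith
  apply LipschitzWith.of_dist_le_mul
  intro x y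
  rw [dist_eq_norm, dist_eq_norm]
  have e : A t *ᵥ x + r t - (A t *ᵥ y + r t) = A t *ᵥ (x - y) := by
    rw [Matrix.mulVec_sub]
    abel
  rw [e]
  exact mulVec_norm (ha t (Ioo_subset_Icc_self ht)) _

/-- global existence -/
theorem glob {A : ℝ → Matrix (Fin 3) (Fin 3) ℝ} {r : ℝ → V3}
    (hA : ∀ j k, Continuous (fun t => A t j k)) (hr : Continuous r) (t0 : ℝ) (x0 : V3) :
    ∃ X : ℝ → V3, X t0 = x0 ∧ ∀ t, HasDerivAt X (A t *ᵥ X t + r t) t := by
  have h : ∀ n : ℕ, ∃ X : ℝ → V3, X t0 = x0 ∧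
      ∀ t ∈ Ioo (t0 - ((n : ℝ) + 1)) (t0 + ((n : ℝ) + 1)), HasDerivAt X (A t *ᵥ X t + r t) t :=
    fun n => loc hA hr t0 x0 (by positivity)
  choose X hX0 hX using h
  have hmem : ∀ t : ℝ, ∀ n : ℕ, ⌊|t - t0|⌋₊ ≤ n →
      t ∈ Ioo (t0 - ((n : ℝ) + 1)) (t0 + ((n : ℝ) + 1)) := by
    intro t n hn
    have h1 : |t - t0| < (n : ℝ) + 1 := by
      have h2 := Nat.lt_floor_add_one |t - t0|
      have h3 : ((⌊|t - t0|⌋₊ : ℕ) : ℝ) ≤ n := by exact_mod_cast hn
      linarith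
    rw [abs_lt] at h1
    exact ⟨by linarith [h1.1], by linarith [h1.2]⟩
  have heq : ∀ n m : ℕ, n ≤ m → ∀ t ∈ Ioo (t0 - ((n : ℝ) + 1)) (t0 + ((n : ℝ) + 1)),
      X n t = X m t := by
    intro n m hnm
    have hnm' : (n : ℝ) ≤ m := by exact_mod_cast hnm
    refine uniq (r := r) hA (by positivity) ?_ (hX n) ?_
    · rw [hX0, hX0]
    · intro t ht
      exact hX m t ⟨by linarith [ht.1], by linarith [ht.2]⟩
  have heq' : ∀ n : ℕ, ∀ t ∈ Ioo (t0 - ((n : ℝ) + 1)) (t0 + ((n : ℝ) + 1)),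
      X ⌊|t - t0|⌋₊ t = X n t := by
    intro n t ht
    rcases le_total ⌊|t - t0|⌋₊ n with hle | hle
    · exact heq _ _ hle t (hmem t _ le_rfl)
    · exact (heq _ _ hle t ht).symm
  refine ⟨fun t => X ⌊|t - t0|⌋₊ t, hX0 _, fun t => ?_⟩
  have h1 := hmem t _ le_rfl
  have h2 := hX _ t h1
  refine h2.congr_of_eventuallyEq ?_
  filter_upwards [Ioo_mem_nhds h1.1 h1.2] with s hs
  exact heq' _ s hs

theorem mulVec_contDiff {A : ℝ → Matrix (Fin 3) (Fin 3) ℝ} {n : WithTop ℕ∞}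
    (hA : ∀ j k, ContDiff ℝ n (fun t => A t j k)) {f : ℝ → V3} (hf : ContDiff ℝ n f) :
    ContDiff ℝ n (fun t => A t *ᵥ f t) := by
  rw [contDiff_pi]
  intro j
  have h : (fun t => (A t *ᵥ f t) j) = fun t => ∑ k, A t j k * f t k := rfl
  rw [h]
  refine ContDiff.sum fun k _ => ?_
  exact (hA j k).mul ((contDiff_pi.1 hf) k)

end ItemT3

open ItemT3 in
theorem prfT3 : claimT3 := by
  intro A r t0 x0 hA hr
  obtain ⟨X, hX0, hX⟩ := glob (fun j k => (hA j k).continuous) hr.continuous t0 x0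
  refine ⟨X, ?_, hX0, hX⟩
  have hder : deriv X = fun t => A t *ᵥ X t + r t := funext fun t => (hX t).deriv
  have hdiff : Differentiable ℝ X := fun t => (hX t).differentiableAt
  have key : ∀ n : ℕ, ContDiff ℝ n X := by
    intro n
    induction n with
    | zero => exact contDiff_zero.2 hdiff.continuous
    | succ n ih =>
      have h1 : ContDiff ℝ ((n : WithTop ℕ∞) + 1) X := by
        rw [contDiff_succ_iff_deriv]
        refine ⟨hdiff, by simp, ?_⟩
        rw [hder]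
        exact (mulVec_contDiff (fun j k => (hA j k).of_le (by exact_mod_cast le_top)) ih).add
          (hr.of_le (by exact_mod_cast le_top))
      exact_mod_cast h1
  exact contDiff_infty.2 key

end Pool.Agent.Work.MP_b0497c_an.Forced.W
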