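import Pool.Agent.Work.MP_b0497c_an.Forced.W.StmtsB

set_option autoImplicit false

/-!
# WKB module: item T5 (the corrector equation in Eulerian form)
-/

open scoped ContDiff Matrix
open Set

namespace Pool.Agent.Work.MP_b0497c_an.Forced.W

namespace T5

section calculus

variable {ι : Type} {Lam : ι → ℝ} {I : ι → Set ℝ} {mu : ι → ℝ → ℝ}

theorem mulOne (hA1 : claimA1) (hL : ∀ i, 2 ≤ Lam i) {c d : ι → ℝ → ℝ}
    (hc : Mod Lam I (fun _ _ => 1) c) (hd : Mod Lam I mu d) :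
    Mod Lam I mu (fun i t => c i t * d i t) := by
  have := hA1 ι Lam I (fun _ _ => 1) mu c d hL hc hd
  simp only [one_mul] at this
  exact this

theorem addM (hA2 : claimA2) (hL : ∀ i, 2 ≤ Lam i) {c d : ι → ℝ → ℝ}
    (hc : Mod Lam I mu c) (hd : Mod Lam I mu d) :
    Mod Lam I mu (fun i t => c i t + d i t) :=
  (hA2 ι Lam I mu c hL hc).1 d hd

theorem smulM (hA2 : claimA2) (hL : ∀ i, 2 ≤ Lam i) {c : ι → ℝ → ℝ} (r : ℝ)
    (hc : Mod Lam I mu c) :
    Mod Lam I mu (fun i t => r * c i t) :=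
  (hA2 ι Lam I mu c hL hc).2.1 r

theorem sum3 (hA2 : claimA2) (hL : ∀ i, 2 ≤ Lam i) {c : Fin 3 → ι → ℝ → ℝ}
    (hc : ∀ k, Mod Lam I mu (c k)) :
    Mod Lam I mu (fun i t => ∑ k, c k i t) := by
  have h1 := addM hA2 hL (hc 0) (hc 1)
  have h2 := addM hA2 hL h1 (hc 2)
  have e : (fun i t => ∑ k, c k i t) = fun i t => c 0 i t + c 1 i t + c 2 i t := by
    funext i t; rw [Fin.sum_univ_three]
  rw [e]; exact h2

end calculus

variable {ι : Type}

/-- the matrix of the Kelvin vector field -/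
noncomputable def AA (S : Lev ι) (j k : Fin 3) (i : ι) (t : ℝ) : ℝ :=
  (-1) * S.M i t j k + 2 * (S.K i t j * ((S.K i t ⬝ᵥ S.K i t)⁻¹ *
    ∑ l, S.K i t l * S.M i t l k))

/-- the source, made orthogonal to `K` -/
noncomputable def ff (S : Lev ι) (r : Fin 3 → ι → ℝ → ℝ) (j : Fin 3) (i : ι) (t : ℝ) : ℝ :=
  r j i t + (-1) * (S.K i t j * ((S.K i t ⬝ᵥ S.K i t)⁻¹ * ∑ l, S.K i t l * r l i t))

theorem dot3 (u v : V3) : u ⬝ᵥ v = u 0 * v 0 + u 1 * v 1 + u 2 * v 2 := by
  simp only [dotProduct, Fin.sum_univ_three]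

theorem mv3 (A : Matrix (Fin 3) (Fin 3) ℝ) (v : V3) (j : Fin 3) :
    (A *ᵥ v) j = A j 0 * v 0 + A j 1 * v 1 + A j 2 * v 2 := by
  simp only [Matrix.mulVec, dotProduct, Fin.sum_univ_three]

theorem kel (S : Lev ι) (i : ι) (t : ℝ) (X : V3) (j : Fin 3) :
    ∑ k, AA S j k i t * X k = kelvin (S.M i t) (S.K i t) X j := by
  unfold AA kelvin
  simp only [Pi.add_apply, Pi.neg_apply, Pi.smul_apply, smul_eq_mul, div_eq_mul_inv]
  rw [dot3 (S.K i t) (S.M i t *ᵥ X), mv3, mv3, mv3, mv3]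
  simp only [Fin.sum_univ_three]
  ring

end T5

open T5 in
theorem prfT5 (hA1 : claimA1) (hA2 : claimA2) (hT2 : claimT2) (hT3 : claimT3)
    (hT4 : claimT4) : claimT5 := by
  intro ι S mu r hmu hr
  obtain ⟨-, -, hKpos, hKd, hKc, -, -, hKm, hQm⟩ := hT4 ι S
  have hL := S.two_le_Lam
  have hMm : ∀ j k, Mod S.Lam S.I (fun _ _ => 1) (fun i t => S.M i t j k) := S.mod_M
  -- moderate coefficients
  have hAA : ∀ j k, Mod S.Lam S.I (fun _ _ => 1) (AA S j k) := by
    intro j k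
    refine addM hA2 hL (smulM hA2 hL _ (hMm j k)) (smulM hA2 hL _ ?_)
    refine mulOne hA1 hL (hKm j) (mulOne hA1 hL hQm ?_)
    exact sum3 hA2 hL fun l => mulOne hA1 hL (hKm l) (hMm l k)
  have hff : ∀ j, Mod S.Lam S.I (fun i t => mu i * S.p i t) (ff S r j) := by
    intro j
    refine addM hA2 hL (hr j) (smulM hA2 hL _ ?_)
    refine mulOne hA1 hL (hKm j) (mulOne hA1 hL hQm ?_)
    exact sum3 hA2 hL fun l => mulOne hA1 hL (hKm l) (hr l)
  -- solutions
  have hex : ∀ i, ∃ X : ℝ → V3, ContDiff ℝ ∞ X ∧ X (S.s i) = 0 ∧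
      ∀ t, HasDerivAt X ((Matrix.of fun j k => AA S j k i t) *ᵥ X t + fun j => ff S r j i t) t := by
    intro i
    exact hT3 (fun t => Matrix.of fun j k => AA S j k i t) (fun t j => ff S r j i t) (S.s i) 0
      (fun j k => (hAA j k).1 i) (contDiff_pi.2 fun j => (hff j).1 i)
  choose X hXc hXs hXd using hex
  have hXd' : ∀ i t, HasDerivAt (X i) (kelvin (S.M i t) (S.K i t) (X i t)
      - fun j => - ff S r j i t) t := by
    intro i t
    have h := hXd i t
    have e : ((Matrix.of fun j k => AA S j k i t) *ᵥ X i t + fun j => ff S r j i t) =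
        kelvin (S.M i t) (S.K i t) (X i t) - fun j => - ff S r j i t := by
      funext j
      have := kel S i t (X i t) j
      simp only [Pi.add_apply, Pi.sub_apply, sub_neg_eq_add]
      rw [← this]
      rfl
    rwa [e] at h
  have hXj : ∀ j i t, HasDerivAt (fun t => X i t j)
      (∑ k, AA S j k i t * X i t k + ff S r j i t) t := by
    intro j i t
    have h := (hasDerivAt_pi.1 (hXd i t)) j
    exact h
  have hq : ∀ i t, (S.K i t 0 * S.K i t 0 + S.K i t 1 * S.K i t 1 + S.K i t 2 * S.K i t 2) *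
      (S.K i t ⬝ᵥ S.K i t)⁻¹ = 1 := by
    intro i t
    rw [← dot3]
    exact mul_inv_cancel₀ (hKpos i t).ne'
  have hKf : ∀ i t, S.K i t ⬝ᵥ (fun j => - ff S r j i t) = 0 := by
    intro i t
    rw [dot3]
    unfold ff
    simp only [Fin.sum_univ_three]
    have h := hq i t
    linear_combination (S.K i t 0 * r 0 i t + S.K i t 1 * r 1 i t + S.K i t 2 * r 2 i t) * h
  have hKX : ∀ i t, S.K i t ⬝ᵥ X i t = 0 := by
    intro i
    have hd : ∀ t, HasDerivAt (fun t => S.K i t ⬝ᵥ X i t) 0 t := by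
      intro t
      have hK : ∀ j, HasDerivAt (fun t => S.K i t j) (- ((S.M i t)ᵀ *ᵥ S.K i t) j) t := by
        intro j
        exact (hasDerivAt_pi.1 (hKd i t)) j
      have h3 := (((hK 0).mul (hXj 0 i t)).add ((hK 1).mul (hXj 1 i t))).add
        ((hK 2).mul (hXj 2 i t))
      have e1 : (fun t => S.K i t ⬝ᵥ X i t) = fun t =>
          S.K i t 0 * X i t 0 + S.K i t 1 * X i t 1 + S.K i t 2 * X i t 2 := by
        funext t; exact dot3 _ _
      rw [e1]
      refine h3.congr_deriv ?_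
      rw [mv3, mv3, mv3]
      unfold AA ff
      simp only [Fin.sum_univ_three, Matrix.transpose_apply]
      have h := hq i t
      linear_combination
        (2 * ((S.K i t 0 * S.M i t 0 0 + S.K i t 1 * S.M i t 1 0 + S.K i t 2 * S.M i t 2 0)
            * X i t 0
          + (S.K i t 0 * S.M i t 0 1 + S.K i t 1 * S.M i t 1 1 + S.K i t 2 * S.M i t 2 1)
            * X i t 1
          + (S.K i t 0 * S.M i t 0 2 + S.K i t 1 * S.M i t 1 2 + S.K i t 2 * S.M i t 2 2)
            * X i t 2)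
          - (S.K i t 0 * r 0 i t + S.K i t 1 * r 1 i t + S.K i t 2 * r 2 i t)) * h
    intro t
    have h1 : S.K i t ⬝ᵥ X i t = S.K i (S.s i) ⬝ᵥ X i (S.s i) :=
      is_const_of_deriv_eq_zero (fun t => (hd t).differentiableAt) (fun t => (hd t).deriv)
        t (S.s i)
    rw [h1, hXs i]
    simp
  -- bound of order zero
  obtain ⟨n, hn⟩ := S.dom
  have hfb : ∃ m : ℕ, ∀ j i, ∀ t ∈ S.I i, |ff S r j i t| ≤ S.Lam i ^ m * (mu i * S.p i t) := by
    have h0 : ∀ j, ∃ m : ℕ, ∀ i, ∀ t ∈ S.I i,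
        |ff S r j i t| ≤ S.Lam i ^ m * (mu i * S.p i t) := by
      intro j
      obtain ⟨m, hm⟩ := (hff j).2 0
      refine ⟨m, fun i t ht => ?_⟩
      have := hm i t ht
      rwa [iteratedDeriv_zero] at this
    choose m hm using h0
    refine ⟨∑ j, m j, fun j i t ht => (hm j i t ht).trans ?_⟩
    refine mul_le_mul_of_nonneg_right ?_ (mul_nonneg (hmu i) (S.p_nonneg i t))
    exact pow_le_pow_right₀ (by linarith [hL i])
      (Finset.single_le_sum (f := m) (fun _ _ => Nat.zero_le _) (Finset.mem_univ j))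
  obtain ⟨m, hm⟩ := hfb
  have hXb : ∃ n : ℕ, ∀ j i, ∀ t ∈ S.I i, |X i t j| ≤ S.Lam i ^ n * (mu i * S.p i t) := by
    refine ⟨m + n, fun j i t ht => ?_⟩
    have h1 := hn i (X i) (fun t j => - ff S r j i t) (hXc i)
      (contDiff_pi.2 fun j => ((hff j).1 i).neg) (hXs i) (hKX i) (hKf i) (hXd' i)
      (S.Lam i ^ m * mu i) (mul_nonneg (pow_nonneg (by linarith [hL i]) _) (hmu i))
      (fun t ht => by
        have h0 : 0 ≤ S.Lam i ^ m * mu i * S.p i t :=
          mul_nonneg (mul_nonneg (pow_nonneg (by linarith [hL i]) _) (hmu i)) (S.p_nonneg i t)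
        refine (pi_norm_le_iff_of_nonneg h0).2 fun j => ?_
        rw [norm_neg, Real.norm_eq_abs]
        calc |ff S r j i t| ≤ S.Lam i ^ m * (mu i * S.p i t) := hm j i t ht
          _ = _ := by ring) t ht
    calc |X i t j| = ‖X i t j‖ := (Real.norm_eq_abs _).symm
      _ ≤ ‖X i t‖ := norm_le_pi_norm _ _
      _ ≤ _ := h1
      _ = _ := by rw [pow_add]; ring
  have hXm : ∀ a, Mod S.Lam S.I (fun i t => mu i * S.p i t) (fun i t => X i t a) :=
    hT2 ι S.Lam S.I (fun i t => mu i * S.p i t) (AA S) (fun j i t => X i t j) (ff S r) hL hAA hff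
      (fun i t => mul_nonneg (hmu i) (S.p_nonneg i t))
      (fun j i => (contDiff_pi.1 (hXc i)) j) hXj hXb
  refine ⟨X, fun i t => (S.K i t ⬝ᵥ S.K i t)⁻¹ * (∑ l, S.K i t l * r l i t
    + (-2) * ∑ l, S.K i t l * ∑ k, S.M i t l k * X i t k), hXm, ?_, hKX, ?_⟩
  · refine mulOne hA1 hL hQm (addM hA2 hL ?_ (smulM hA2 hL _ ?_))
    · exact sum3 hA2 hL fun l => mulOne hA1 hL (hKm l) (hr l)
    · exact sum3 hA2 hL fun l => mulOne hA1 hL (hKm l)
        (sum3 hA2 hL fun k => mulOne hA1 hL (hMm l k) (hXm k))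
  · intro i t a
    refine (hXj a i t).congr_deriv ?_
    unfold AA ff
    rw [mv3]
    simp only [Fin.sum_univ_three]
    ring

end Pool.Agent.Work.MP_b0497c_an.Forced.W
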