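import Pool.Agent.Work.MP_b0497c_an.Forced.W.StmtsB

set_option autoImplicit false

/-!
# WKB module: assembly
-/

open scoped ContDiff Matrix
open Set

namespace Pool.Agent.Work.MP_b0497c_an.Forced.W

namespace Fin'

variable {ι : Type}

/-- The part of the force coming from a symbol vector, as function of `(t, x)`, multiplied by a
time cut-off. -/
noncomputable def G (S : Lev ι) (ze : ι → ℝ → ℝ) (E : Fin 3 → Sm ι) (i : ι) (z : ℝ × V3) : V3 :=
  fun j => (1 - ze i z.1) * frc S E i z.1 z.2 j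

theorem frc_add (S : Lev ι) (E E' : Fin 3 → Sm ι) (i : ι) (t : ℝ) (x : V3) (j : Fin 3) :
    frc S (fun a => E a + E' a) i t x j = frc S E i t x j + frc S E' i t x j := by
  simp only [frc]
  rw [← mul_add, ← Finset.sum_add_distrib]
  congr 1
  refine Finset.sum_congr rfl fun b _ => ?_
  rw [← mul_add]
  rfl

theorem contDiff_frc (hR3 : claimR3) (S : Lev ι) (mu : ι → ℝ → ℝ) (Q : (ℝ → ℝ) → Prop)
    (E : Fin 3 → Sm ι) (hE : ∀ a, E a ∈ Sym S.Lam S.I mu Pb Q) (i : ι) (j : Fin 3) :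
    ContDiff ℝ ∞ (fun z : ℝ × V3 => frc S E i z.1 z.2 j) := by
  simp only [frc]
  refine contDiff_const.mul (ContDiff.sum fun b _ => ?_)
  refine ContDiff.mul (((S.mod_Fi b j).1 i).comp contDiff_fst) ?_
  exact (hR3 ι S mu Q (E b) (hE b)).1 i

theorem contDiff_vel (hR3 : claimR3) (S : Lev ι) (mu : ι → ℝ → ℝ) (Q : (ℝ → ℝ) → Prop)
    (E : Fin 3 → Sm ι) (hE : ∀ a, E a ∈ Sym S.Lam S.I mu Pb Q) (i : ι) :
    ContDiff ℝ ∞ (fun z : ℝ × V3 => vel S E i z.1 z.2) := by
  rw [contDiff_pi]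
  intro j
  simp only [vel]
  refine contDiff_const.mul (ContDiff.sum fun b _ => ?_)
  refine ContDiff.mul (((S.mod_F j b).1 i).comp contDiff_fst) ?_
  exact (hR3 ι S mu Q (E b) (hE b)).1 i

/-- Bounds on the window for one part of the force. -/
theorem bd_G (hA1 : claimA1) (hA2 : claimA2) (hA3 : claimA3) (hI1 : claimI1) (hI4 : claimI4)
    (hI6 : claimI6) (S : Lev ι)
    (ze : ι → ℝ → ℝ) (hze : Mod S.Lam S.I (fun _ _ => 1) ze)
    (E : Fin 3 → Sm ι) (N mu : ι → ℝ) (hN : ∀ i, 1 ≤ N i) (hmu : ∀ i, 0 ≤ mu i)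
    (hE : ∀ a, Bd S.Lam (fun i => S.I i ×ˢ Metric.closedBall (0 : V3) 1) N mu
      (fun i z => (E a).1 i (Phi S i z))) :
    Bd S.Lam (fun i => S.I i ×ˢ Metric.closedBall (0 : V3) 1) N mu (G S ze E) := by
  have hN0 : ∀ i, 0 ≤ N i := fun i => le_trans zero_le_one (hN i)
  refine hI6 ι (ℝ × V3) S.Lam _ N mu _ S.two_le_Lam hN0 hmu fun j => ?_
  -- coefficients
  have hone : Mod S.Lam S.I (fun _ _ => (1 : ℝ)) (fun _ _ => (1 : ℝ)) :=
    hA3 ι S.Lam S.I (fun _ _ => 1) (fun _ => 1) S.two_le_Lam ⟨0, fun i t _ => by simp⟩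
  have hz1 : Mod S.Lam S.I (fun _ _ => (1 : ℝ)) (fun i t => 1 + (-1) * ze i t) :=
    (hA2 ι S.Lam S.I _ _ S.two_le_Lam hone).1 _ ((hA2 ι S.Lam S.I _ _ S.two_le_Lam hze).2.1 (-1))
  have hrho : Mod S.Lam S.I (fun _ _ => (1 : ℝ)) (fun i _ => S.rho i) :=
    hA3 ι S.Lam S.I (fun _ _ => 1) S.rho S.two_le_Lam ⟨0, fun i t _ => by
      rw [abs_of_pos (S.rho_pos i)]; simpa using S.rho_le i⟩
  have hc : ∀ b, Mod S.Lam S.I (fun _ _ => (1 : ℝ))
      (fun i t => (1 + (-1) * ze i t) * (S.rho i * S.Fi i t b j)) := by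
    intro b
    have h1 := hA1 ι S.Lam S.I _ _ _ _ S.two_le_Lam hrho (S.mod_Fi b j)
    have h2 := hA1 ι S.Lam S.I _ _ _ _ S.two_le_Lam hz1 h1
    simpa using h2
  have hcB : ∀ b, Bd S.Lam (fun i => S.I i ×ˢ Metric.closedBall (0 : V3) 1) N (fun _ => 1)
      (fun i z => (1 + (-1) * ze i z.1) * (S.rho i * S.Fi i z.1 b j)) := by
    intro b
    have h1 := hI4 ι V3 S.Lam S.I (fun i => S.I i ×ˢ Metric.closedBall (0 : V3) 1) (fun _ => 1) _
      S.two_le_Lam (fun i z hz => hz.1) (hc b)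
    exact (hI1 ι (ℝ × V3) S.Lam _ (fun _ => 1) (fun _ => 1) _ (fun _ _ => 0) S.two_le_Lam
      (fun _ => zero_le_one) (fun _ => zero_le_one) h1).2.2.2 N (fun _ => 1) hN
      (fun _ => le_refl _)
  have hprod : ∀ b, Bd S.Lam (fun i => S.I i ×ˢ Metric.closedBall (0 : V3) 1) N mu
      (fun i z => (1 + (-1) * ze i z.1) * (S.rho i * S.Fi i z.1 b j) *
        (E b).1 i (Phi S i z)) := by
    intro b
    have := (hI1 ι (ℝ × V3) S.Lam _ N (fun _ => 1) _ _ S.two_le_Lam hN0
      (fun _ => zero_le_one) (hcB b)).2.1 mu (hE b)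
    simpa using this
  have hsum := (hI1 ι (ℝ × V3) S.Lam _ N mu _ _ S.two_le_Lam hN0 hmu
    ((hI1 ι (ℝ × V3) S.Lam _ N mu _ _ S.two_le_Lam hN0 hmu (hprod 0)).1 (hprod 1))).1 (hprod 2)
  have heq : (fun (i : ι) (z : ℝ × V3) => G S ze E i z j) = fun i z =>
      (1 + (-1) * ze i z.1) * (S.rho i * S.Fi i z.1 0 j) * (E 0).1 i (Phi S i z) +
      (1 + (-1) * ze i z.1) * (S.rho i * S.Fi i z.1 1 j) * (E 1).1 i (Phi S i z) +
      (1 + (-1) * ze i z.1) * (S.rho i * S.Fi i z.1 2 j) * (E 2).1 i (Phi S i z) := by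
    funext i z
    simp only [G, frc, Fin.sum_univ_three, Prod.mk.eta]
    ring
  rw [heq]
  exact hsum

end Fin'

theorem wkb (hA1 : claimA1) (hA2 : claimA2) (hA3 : claimA3) (hI1 : claimI1) (hI4 : claimI4)
    (hI6 : claimI6) (hJ1 : claimJ1) (hJ2 : claimJ2) (hD7 : claimD7) (hD8 : claimD8)
    (hT6 : claimT6) (hR2 : claimR2) (hR3 : claimR3) (hR4 : claimR4) :
    claimWKB := by
  obtain ⟨⟨chi, hchi, hchi1⟩, h, hh, hh1⟩ := hJ1
  intro ι S J
  obtain ⟨T, hT⟩ := hT6 ι S
  obtain ⟨eta, heta, heta01, heta0, heta1, hetad, hetaq⟩ := hJ2 ι S.Lam S.I S.s S.del S.two_le_Lam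
    S.del_pos S.del_inv
  obtain ⟨ze, hze, hze01, hze0, hze1, -, -⟩ := hJ2 ι S.Lam S.I S.e S.del S.two_le_Lam
    S.del_pos S.del_inv
  obtain ⟨V, q, s, m, o, hV, hq, hs, hks, hdiv, hm, ho, hE, hnear⟩ :=
    hD7 ι T chi h hchi hchi1 hh J
  obtain ⟨V', q', m', o', hV', hq', hdiv', hm', ho', hE', hzero', hnear'⟩ :=
    hD8 ι T J h S.b (fun i => S.s i + S.del i) eta V q s m o hV hq hs hks hdiv hm ho hE hnear
      S.b_nonneg
      (by
        rw [hT.I, hT.p]
        intro i t ht hts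
        exact S.p_small i t ⟨ht.1, hts⟩)
      (by rw [hT.Lam, hT.I]; exact heta)
      (by rw [hT.Lam, hT.I]; exact hetad)
      (by rw [hT.Lam, hT.I]; exact hetaq)
  rw [hT.Lam, hT.I] at hV' hq' hm' ho'
  rw [hT.a, hT.N] at hm' ho'
  have hNf : ∀ i, 1 ≤ S.Nf i * S.rho i := fun i =>
    le_trans (by linarith [S.a_nonneg i]) (S.a_le i)
  have hNpos : ∀ i, 0 < S.Nf i * S.rho i := fun i => lt_of_lt_of_le one_pos (hNf i)
  have hmu1 : ∀ i, 0 ≤ (1 + S.a i) ^ 2 * ((S.Nf i * S.rho i) ^ 2)⁻¹ := fun i => by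
    positivity
  have heps : ∀ i, 0 ≤ ((1 + S.a i) / (S.Nf i * S.rho i)) ^ J := fun i => by
    have := S.a_nonneg i
    have := hNpos i
    positivity
  have hmu2 : ∀ i, 0 ≤ S.b i + ((1 + S.a i) / (S.Nf i * S.rho i)) ^ J := fun i =>
    add_nonneg (S.b_nonneg i) (heps i)
  -- vanishing of the physical fields
  have hRm := fun a => hR3 ι S _ _ (m' a) (hm' a)
  have hRo := fun a => hR3 ι S _ _ (o' a) (ho' a)
  have hRV := fun a => hR3 ι S _ _ (V' a) (hV' a)
  have hRq := hR3 ι S _ _ q' hq'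
  have hEmo : ∀ a, T.E V' q' a = m' a + o' a := hE'
  have hEfun : (T.E V' q') = fun a => m' a + o' a := funext hEmo
  have hWcd := Fin'.contDiff_vel hR3 S _ _ V' hV'
  have hqcd : ∀ i, ContDiff ℝ ∞ (fun z : ℝ × V3 => prs S q' i z.1 z.2) := fun i => by
    simp only [prs]
    exact contDiff_const.mul (hRq.1 i)
  have hWzero : ∀ i t x, t ≤ S.s i → vel S V' i t x = 0 := by
    intro i t x ht
    funext j
    simp only [vel]
    have : ∀ b, (V' b).1 i (Phi S i (t, x)) = 0 := fun b =>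
      (hzero' i t (Phi S i (t, x)) (heta0 i t ht) rfl).1 b
    simp [this]
  have hqzero : ∀ i t x, t ≤ S.s i → prs S q' i t x = 0 := by
    intro i t x ht
    simp only [prs]
    rw [(hzero' i t (Phi S i (t, x)) (heta0 i t ht) rfl).2, mul_zero]
  have hfzero : ∀ i t x, t ≤ S.s i → frc S (fun a => m' a + o' a) i t x = 0 := by
    intro i t x ht
    funext j
    rw [← hEfun, ← (hR2 ι S T hT V' q' i t x).1 j]
    have h1 : vel S V' i t = fun _ => 0 := funext fun y => hWzero i t y ht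
    have h2 : prs S q' i t = fun _ => 0 := funext fun y => hqzero i t y ht
    have h3 : deriv (fun τ => vel S V' i τ x j) t = 0 := by
      have hd : DifferentiableAt ℝ (fun τ => vel S V' i τ x j) t := by
        have h4 : ContDiff ℝ ∞ (fun τ : ℝ => vel S V' i τ x) :=
          (hWcd i).comp (contDiff_id.prodMk contDiff_const)
        exact ((contDiff_pi.1 h4 j).differentiable (by simp)) t
      have h5 : HasDerivWithinAt (fun τ => vel S V' i τ x j)
          (deriv (fun τ => vel S V' i τ x j) t) (Iic t) t := hd.hasDerivAt.hasDerivWithinAt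
      have h6 : HasDerivWithinAt (fun τ => vel S V' i τ x j) 0 (Iic t) t := by
        refine (hasDerivWithinAt_const t (Iic t) (0 : ℝ)).congr ?_ ?_
        · intro τ hτ
          rw [hWzero i τ x (le_trans hτ ht)]
          rfl
        · rw [hWzero i t x ht]
          rfl
      exact (uniqueDiffWithinAt_Iic t).eq_deriv (Iic t) h5 h6
    rw [h3, h1, h2]
    simp
  refine ⟨fun i t x => vel S V' i t x, fun i t x => prs S q' i t x,
    fun i t x => Fin'.G S ze (fun a => m' a + o' a) i (t, x), hWcd, hqcd, ?_, ?_, ?_, ?_, ?_, ?_,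
    ?_, ?_⟩
  · -- smoothness of g
    intro i
    rw [contDiff_pi]
    intro j
    have h1 := Fin'.contDiff_frc hR3 S _ _ m' hm' i j
    have h2 := Fin'.contDiff_frc hR3 S _ _ o' ho' i j
    simp only [Fin'.G, Fin'.frc_add]
    exact (contDiff_const.sub ((hze.1 i).comp contDiff_fst)).mul (h1.add h2)
  · intro i t x ht
    refine ⟨hWzero i t x ht, hqzero i t x ht, ?_⟩
    funext j
    simp only [Fin'.G]
    rw [hfzero i t x ht]
    simp
  · intro i t ht x hx
    have hr := (hRq.2.2.1 i t ht x hx).le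
    refine ⟨?_, ?_, ?_⟩
    · funext j
      simp only [vel]
      have : ∀ b, (V' b).1 i (Phi S i (t, x)) = 0 := fun b => (hRV b).2.1 i t x hr
      simp [this]
    · simp only [prs]
      rw [hRq.2.1 i t x hr, mul_zero]
    · funext j
      simp only [Fin'.G, Fin'.frc_add]
      simp only [frc]
      have h1 : ∀ b, (m' b).1 i (Phi S i (t, x)) = 0 := fun b => (hRm b).2.1 i t x hr
      have h2 : ∀ b, (o' b).1 i (Phi S i (t, x)) = 0 := fun b => (hRo b).2.1 i t x hr
      simp [h1, h2]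
  · intro i t x ht
    funext j
    simp only [Fin'.G]
    rw [hze1 i t ht]
    simp
  · intro i t x
    rw [(hR2 ι S T hT V' q' i t x).2, hdiv']
    rfl
  · intro i t ht x j
    rw [(hR2 ι S T hT V' q' i t x).1 j, hEfun]
    simp only [Fin'.G]
    rw [hze0 i t ht]
    ring
  · intro i
    refine ⟨eta i, heta01 i, heta1 i, ?_⟩
    intro t x hx hK
    funext j
    have hρ := S.rho_pos i
    have hy : ‖(S.rho i)⁻¹ • (S.Fi i t *ᵥ x)‖ < 1 / 2 := by
      rw [norm_smul, Real.norm_eq_abs, abs_of_pos (inv_pos.2 hρ)]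
      rw [inv_mul_lt_iff₀ hρ]
      linarith
    have hth : h (S.Nf i * (S.K i t ⬝ᵥ x)) = S.Nf i * (S.K i t ⬝ᵥ x) := by
      apply hh1
      rw [abs_mul]
      have hNfpos : 0 < S.Nf i := by
        have := hNpos i
        exact (pos_iff_pos_of_mul_pos this).2 hρ
      rw [abs_of_pos hNfpos]
      exact hK
    have hVb : ∀ b, (V' b).1 i (Phi S i (t, x)) =
        eta i t * ((T.N i)⁻¹ * T.v b i t * (S.Nf i * (S.K i t ⬝ᵥ x))) := by
      intro b
      rw [hnear' b i (Phi S i (t, x)) hy]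
      simp only [Phi]
      rw [hth]
    simp only [vel]
    have hFv : ∑ b, S.F i t j b * T.v b i t = S.w i t j := by
      have h1 : (S.F i t *ᵥ (fun j => T.v j i t)) j = S.w i t j := by
        rw [hT.v, Matrix.mulVec_mulVec, S.F_Fi, Matrix.one_mulVec]
      rw [← h1]
      simp [Matrix.mulVec, dotProduct]
    have hN : T.N i = S.Nf i * S.rho i := by rw [hT.N]
    have hstep : S.rho i * ∑ b, S.F i t j b * (V' b).1 i (Phi S i (t, x)) =
        S.rho i * (T.N i)⁻¹ * S.Nf i * eta i t * (S.K i t ⬝ᵥ x) *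
          ∑ b, S.F i t j b * T.v b i t := by
      rw [Finset.mul_sum, Finset.mul_sum]
      refine Finset.sum_congr rfl fun b _ => ?_
      rw [hVb b]
      ring
    rw [hstep, hFv, hN]
    have hNfne : S.Nf i ≠ 0 := by
      intro h0
      have := hNpos i
      rw [h0, zero_mul] at this
      exact lt_irrefl _ this
    have : S.rho i * (S.Nf i * S.rho i)⁻¹ * S.Nf i = 1 := by
      have := hρ.ne'
      field_simp
    rw [this]
    simp only [Pi.smul_apply, smul_eq_mul]
    ring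
  · -- bounds
    have hB1 := Fin'.bd_G hA1 hA2 hA3 hI1 hI4 hI6 S ze hze m' (fun _ => 1) _
      (fun _ => le_refl _) hmu1 (fun a => (hR4 ι S _ (m' a) hmu1).1 (hm' a))
    have hB2 := Fin'.bd_G hA1 hA2 hA3 hI1 hI4 hI6 S ze hze o' (fun i => S.Nf i * S.rho i) _
      hNf hmu2 (fun a => (hR4 ι S _ (o' a) hmu2).2 (ho' a))
    have hGadd : ∀ i z, Fin'.G S ze (fun a => m' a + o' a) i z =
        Fin'.G S ze m' i z + Fin'.G S ze o' i z := by
      intro i z
      funext j
      simp only [Fin'.G, Fin'.frc_add, Pi.add_apply]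
      ring
    intro M
    obtain ⟨n1, hn1⟩ := hB1.2 M
    obtain ⟨n2, hn2⟩ := hB2.2 M
    refine ⟨max n1 n2, fun i z => ?_⟩
    have hLam1 : 1 ≤ S.Lam i := le_trans one_le_two (S.two_le_Lam i)
    have hLam0 : 0 ≤ S.Lam i := le_trans zero_le_one hLam1
    have hNM : 0 ≤ (S.Nf i * S.rho i) ^ M := pow_nonneg (hNpos i).le M
    have hrhs : 0 ≤ S.Lam i ^ max n1 n2 * ((1 + S.a i) ^ 2 * ((S.Nf i * S.rho i) ^ 2)⁻¹
          + (S.Nf i * S.rho i) ^ M * (S.b i + ((1 + S.a i) / (S.Nf i * S.rho i)) ^ J)) :=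
      mul_nonneg (pow_nonneg hLam0 _) (add_nonneg (hmu1 i) (mul_nonneg hNM (hmu2 i)))
    have hfun : (fun z : ℝ × V3 => Fin'.G S ze (fun a => m' a + o' a) i (z.1, z.2)) =
        fun z => Fin'.G S ze m' i z + Fin'.G S ze o' i z := by
      funext z
      exact hGadd i z
    by_cases hz : z ∈ S.I i ×ˢ Metric.closedBall (0 : V3) 1
    · rw [hfun]
      have hcd1 : ContDiffAt ℝ M (Fin'.G S ze m' i) z :=
        ((hB1.1 i).of_le (by exact_mod_cast le_top)).contDiffAt
      have hcd2 : ContDiffAt ℝ M (Fin'.G S ze o' i) z :=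
        ((hB2.1 i).of_le (by exact_mod_cast le_top)).contDiffAt
      have hadd : iteratedFDeriv ℝ M (fun z => Fin'.G S ze m' i z + Fin'.G S ze o' i z) z =
          iteratedFDeriv ℝ M (Fin'.G S ze m' i) z + iteratedFDeriv ℝ M (Fin'.G S ze o' i) z :=
        iteratedFDeriv_add_apply hcd1 hcd2
      rw [hadd]
      have e1 := hn1 i z hz
      have e2 := hn2 i z hz
      have p1 : S.Lam i ^ n1 ≤ S.Lam i ^ max n1 n2 := pow_le_pow_right₀ hLam1 (le_max_left _ _)
      have p2 : S.Lam i ^ n2 ≤ S.Lam i ^ max n1 n2 := pow_le_pow_right₀ hLam1 (le_max_right _ _)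
      calc _ ≤ _ := norm_add_le _ _
        _ ≤ S.Lam i ^ n1 * 1 ^ M * ((1 + S.a i) ^ 2 * ((S.Nf i * S.rho i) ^ 2)⁻¹) +
            S.Lam i ^ n2 * (S.Nf i * S.rho i) ^ M *
              (S.b i + ((1 + S.a i) / (S.Nf i * S.rho i)) ^ J) := add_le_add e1 e2
        _ ≤ S.Lam i ^ max n1 n2 * ((1 + S.a i) ^ 2 * ((S.Nf i * S.rho i) ^ 2)⁻¹) +
            S.Lam i ^ max n1 n2 * ((S.Nf i * S.rho i) ^ M *
              (S.b i + ((1 + S.a i) / (S.Nf i * S.rho i)) ^ J)) := by
            rw [one_pow, mul_one, mul_assoc]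
            exact add_le_add (mul_le_mul_of_nonneg_right p1 (hmu1 i))
              (mul_le_mul_of_nonneg_right p2 (mul_nonneg hNM (hmu2 i)))
        _ = _ := by ring
    · -- outside the window everything vanishes near z
      have hev : (fun z : ℝ × V3 => Fin'.G S ze (fun a => m' a + o' a) i (z.1, z.2)) =ᶠ[nhds z]
          fun _ => 0 := by
        rcases lt_or_ge z.1 (S.s i) with h1 | h1
        · have : ∀ᶠ w : ℝ × V3 in nhds z, w.1 < S.s i :=
            (continuous_fst.tendsto z).eventually (gt_mem_nhds h1)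
          filter_upwards [this] with w hw
          funext j
          simp only [Fin'.G]
          rw [hfzero i w.1 w.2 hw.le]
          simp
        rcases lt_or_ge (S.e i + S.del i) z.1 with h2 | h2
        · have : ∀ᶠ w : ℝ × V3 in nhds z, S.e i + S.del i < w.1 :=
            (continuous_fst.tendsto z).eventually (lt_mem_nhds h2)
          filter_upwards [this] with w hw
          funext j
          simp only [Fin'.G]
          rw [hze1 i w.1 hw.le]
          simp
        have hI : z.1 ∈ S.I i := ⟨h1, h2⟩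
        have hx : S.R i < ‖z.2‖ := by
          by_contra hcon
          apply hz
          refine ⟨hI, ?_⟩
          rw [Metric.mem_closedBall, dist_zero_right]
          exact le_trans (not_lt.1 hcon) (S.R_le i)
        have := hRq.2.2.2 i z.1 hI z.2 hx
        filter_upwards [this] with w hw
        funext j
        simp only [Fin'.G, Fin'.frc_add]
        simp only [frc]
        have h1 : ∀ b, (m' b).1 i (Phi S i (w.1, w.2)) = 0 := fun b =>
          (hRm b).2.1 i w.1 w.2 hw.le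
        have h2 : ∀ b, (o' b).1 i (Phi S i (w.1, w.2)) = 0 := fun b =>
          (hRo b).2.1 i w.1 w.2 hw.le
        simp [h1, h2]
      have h0 := (hev.iteratedFDeriv ℝ M).eq_of_nhds
      rw [h0]
      have : iteratedFDeriv ℝ M (fun _ : ℝ × V3 => (0 : V3)) z = 0 := by
        have := iteratedFDeriv_fun_zero (𝕜 := ℝ) (E := ℝ × V3) (F := V3) (n := M)
        exact congrFun this z
      rw [this, norm_zero]
      exact hrhs

end Pool.Agent.Work.MP_b0497c_an.Forced.W
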