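import Mathlib

set_option autoImplicit false

/-!
# WKB module for the forced Euler blow-up: definitions.

Everything is uniform over an index type `ι` (the levels of the construction).  The gauge
`Lam i ≥ 2` measures moderate quantities, `I i` is the time set on which bounds are claimed.

Variables: `z = (t, y, θ) : ℝ × V3 × ℝ`, where `y` is the (rescaled) Lagrangian position and `θ`
the fast phase.
-/

open scoped ContDiff
open Set

namespace Pool.Agent.Work.MP_b0497c_an.Forced.W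

/-- `ℝ³` with coordinates. -/
abbrev V3 : Type := Fin 3 → ℝ

/-- The space of `(t, y, θ)`. -/
abbrev Z : Type := ℝ × V3 × ℝ

/-- `c` is smooth, and each of its time derivatives is at most `Lam ^ n * mu` on `I`
(`n` depends only on the order of the derivative). -/
def Mod {ι : Type} (Lam : ι → ℝ) (I : ι → Set ℝ) (mu : ι → ℝ → ℝ) (c : ι → ℝ → ℝ) : Prop :=
  (∀ i, ContDiff ℝ ∞ (c i)) ∧
    ∀ d : ℕ, ∃ n : ℕ, ∀ i, ∀ t ∈ I i, |iteratedDeriv d (c i) t| ≤ Lam i ^ n * mu i t

/-- Spatial profiles: smooth, zero outside the open unit ball. -/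
def Pb (psi : V3 → ℝ) : Prop := ContDiff ℝ ∞ psi ∧ ∀ y : V3, 1 ≤ ‖y‖ → psi y = 0

/-- Flat spatial profiles: moreover zero on the open ball of radius `1/2`. -/
def Pf (psi : V3 → ℝ) : Prop := Pb psi ∧ ∀ y : V3, ‖y‖ < 1 / 2 → psi y = 0

/-- Oscillating profiles: smooth and `1`-periodic. -/
def Qp (g : ℝ → ℝ) : Prop := ContDiff ℝ ∞ g ∧ ∀ θ : ℝ, g (θ + 1) = g θ

/-- Oscillating profiles with mean zero. -/
def Qz (g : ℝ → ℝ) : Prop := Qp g ∧ ∫ θ in (0 : ℝ)..1, g θ = 0

/-- The constant profile `1`. -/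
def Q1 (g : ℝ → ℝ) : Prop := g = fun _ => 1

/-- The algebra of smooth functions of `(t, y, θ)`, indexed by `ι`. -/
def Sm (ι : Type) : Subalgebra ℝ (ι → Z → ℝ) where
  carrier := {f | ∀ i, ContDiff ℝ ∞ (f i)}
  mul_mem' := fun {a b} ha hb i => by
    have := (ha i).mul (hb i)
    exact this
  add_mem' := fun {a b} ha hb i => by
    have := (ha i).add (hb i)
    exact this
  algebraMap_mem' := fun r i => by
    exact contDiff_const

theorem Sm_contDiff {ι : Type} (f : Sm ι) (i : ι) : ContDiff ℝ ∞ (f.1 i) := f.2 i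

/-- Directional derivative, the direction may depend on `i`. -/
noncomputable def dd {ι : Type} (v : ι → Z) : Derivation ℝ (Sm ι) (Sm ι) :=
  Derivation.mk'
    { toFun := fun f => ⟨fun i z => fderiv ℝ (f.1 i) z (v i), fun i => by
        have h1 : ContDiff ℝ ∞ (fderiv ℝ (f.1 i)) :=
          (f.2 i).fderiv_right (m := ∞) (by simp)
        exact h1.clm_apply contDiff_const⟩
      map_add' := fun f g => by
        apply Subtype.ext
        funext i z
        have hf : DifferentiableAt ℝ (f.1 i) z := (f.2 i).differentiable (by simp) z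
        have hg : DifferentiableAt ℝ (g.1 i) z := (g.2 i).differentiable (by simp) z
        have : fderiv ℝ (fun z => f.1 i z + g.1 i z) z = fderiv ℝ (f.1 i) z + fderiv ℝ (g.1 i) z :=
          fderiv_fun_add hf hg
        show fderiv ℝ (fun z => f.1 i z + g.1 i z) z (v i) = _
        rw [this]
        rfl
      map_smul' := fun r f => by
        apply Subtype.ext
        funext i z
        have hf : DifferentiableAt ℝ (f.1 i) z := (f.2 i).differentiable (by simp) z
        have : fderiv ℝ (fun z => r • f.1 i z) z = r • fderiv ℝ (f.1 i) z :=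
          fderiv_fun_const_smul hf r
        show fderiv ℝ (fun z => r • f.1 i z) z (v i) = _
        rw [this]
        rfl }
    (fun f g => by
      apply Subtype.ext
      funext i z
      have hf : DifferentiableAt ℝ (f.1 i) z := (f.2 i).differentiable (by simp) z
      have hg : DifferentiableAt ℝ (g.1 i) z := (g.2 i).differentiable (by simp) z
      have : fderiv ℝ (fun z => f.1 i z * g.1 i z) z =
          f.1 i z • fderiv ℝ (g.1 i) z + g.1 i z • fderiv ℝ (f.1 i) z := fderiv_fun_mul hf hg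
      show fderiv ℝ (fun z => f.1 i z * g.1 i z) z (v i) = _
      rw [this]
      rfl)

theorem dd_apply {ι : Type} (v : ι → Z) (f : Sm ι) (i : ι) (z : Z) :
    (dd v f).1 i z = fderiv ℝ (f.1 i) z (v i) := rfl

/-- `∂ₜ`. -/
noncomputable def dt {ι : Type} : Derivation ℝ (Sm ι) (Sm ι) := dd (fun _ => (1, 0, 0))

/-- `∂_{y_k}`. -/
noncomputable def dy {ι : Type} (k : Fin 3) : Derivation ℝ (Sm ι) (Sm ι) :=
  dd (fun _ => (0, Pi.single k 1, 0))

/-- `∂_θ`. -/
noncomputable def dth {ι : Type} : Derivation ℝ (Sm ι) (Sm ι) := dd (fun _ => (0, 0, 1))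

/-- `D_k = ∂_{y_k} + N κ_k ∂_θ`. -/
noncomputable def DD {ι : Type} (N : ι → ℝ) (kap : ι → V3) (k : Fin 3) :
    Derivation ℝ (Sm ι) (Sm ι) :=
  dd (fun i => (0, Pi.single k 1, N i * kap i k))

/-- Constants (depending on `i`) as elements of `Sm ι`. -/
def cst {ι : Type} (c : ι → ℝ) : Sm ι := ⟨fun i _ => c i, fun _ => contDiff_const⟩

/-- `f` is the function `c i t`. -/
def IsCoef {ι : Type} (c : ι → ℝ → ℝ) (f : Sm ι) : Prop := ∀ i z, f.1 i z = c i z.1

/-- Symbols of size `mu`: finite sums of `c(t) ψ(y) g(θ)`, `c` of size `mu`. -/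
def Sym {ι : Type} (Lam : ι → ℝ) (I : ι → Set ℝ) (mu : ι → ℝ → ℝ) (P : (V3 → ℝ) → Prop)
    (Q : (ℝ → ℝ) → Prop) : Submodule ℝ (Sm ι) :=
  Submodule.span ℝ {f : Sm ι | ∃ (c : ι → ℝ → ℝ) (psi : V3 → ℝ) (g : ℝ → ℝ),
    Mod Lam I mu c ∧ P psi ∧ Q g ∧ ∀ i z, f.1 i z = c i z.1 * psi z.2.1 * g z.2.2}

/-- The weight of the class `O(j)`: `ε ^ j N⁻¹ p` with `ε = (1 + a) / N`. -/
noncomputable def wt {ι : Type} (N a : ι → ℝ) (p : ι → ℝ → ℝ) (j : ℕ) (i : ι) (t : ℝ) : ℝ :=
  ((1 + a i) / N i) ^ j * (N i)⁻¹ * p i t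

/-- The Lagrangian Euler operator
`E(V, q) = G ∂ₜ V + B V + G (V·D) V + D q`. -/
noncomputable def EE {ι : Type} (G B : Fin 3 → Fin 3 → Sm ι) (D : Fin 3 → Derivation ℝ (Sm ι) (Sm ι))
    (V : Fin 3 → Sm ι) (q : Sm ι) (a : Fin 3) : Sm ι :=
  ∑ b, G a b * dt (V b) + ∑ b, B a b * V b + ∑ b, G a b * ∑ k, V k * D k (V b) + D a q

/-- The linear part of `EE`. -/
noncomputable def LL {ι : Type} (G B : Fin 3 → Fin 3 → Sm ι) (D : Fin 3 → Derivation ℝ (Sm ι) (Sm ι))
    (V : Fin 3 → Sm ι) (q : Sm ι) (a : Fin 3) : Sm ι :=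
  ∑ b, G a b * dt (V b) + ∑ b, B a b * V b + D a q

/-- Cross product with cyclic indices. -/
def crs {R : Type} [CommRing R] (u v : Fin 3 → R) (k : Fin 3) : R :=
  u (k + 1) * v (k + 2) - u (k + 2) * v (k + 1)

/-- `D × A` with cyclic indices. -/
noncomputable def curlD {ι : Type} (D : Fin 3 → Derivation ℝ (Sm ι) (Sm ι)) (A : Fin 3 → Sm ι)
    (k : Fin 3) : Sm ι :=
  D (k + 1) (A (k + 2)) - D (k + 2) (A (k + 1))

/-- Smooth coefficients as elements of `Sm ι`. -/
def cf {ι : Type} (c : ι → ℝ → ℝ) (hc : ∀ i, ContDiff ℝ ∞ (c i)) : Sm ι :=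
  ⟨fun i z => c i z.1, fun i => (hc i).comp contDiff_fst⟩

end Pool.Agent.Work.MP_b0497c_an.Forced.W
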