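import Pool.Agent.Work.MP_b0497c_an.Forced.W.Defs

set_option autoImplicit false

/-!
# WKB module: statements, part 1 (calculus of moderate coefficients, symbols and bounds)
-/

open scoped ContDiff
open Set

namespace Pool.Agent.Work.MP_b0497c_an.Forced.W

/-! ## A: calculus of `Mod` -/

/-- A1: products. -/
def claimA1 : Prop := ∀ (ι : Type) (Lam : ι → ℝ) (I : ι → Set ℝ) (mu nu : ι → ℝ → ℝ)
    (c d : ι → ℝ → ℝ), (∀ i, 2 ≤ Lam i) → Mod Lam I mu c → Mod Lam I nu d →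
    Mod Lam I (fun i t => mu i t * nu i t) (fun i t => c i t * d i t)

/-- A2: sums, real multiples, monotonicity, derivatives. -/
def claimA2 : Prop := ∀ (ι : Type) (Lam : ι → ℝ) (I : ι → Set ℝ) (mu : ι → ℝ → ℝ)
    (c : ι → ℝ → ℝ), (∀ i, 2 ≤ Lam i) → Mod Lam I mu c →
    (∀ d : ι → ℝ → ℝ, Mod Lam I mu d → Mod Lam I mu (fun i t => c i t + d i t)) ∧
    (∀ r : ℝ, Mod Lam I mu (fun i t => r * c i t)) ∧
    (∀ nu : ι → ℝ → ℝ, (∀ i, ∀ t ∈ I i, mu i t ≤ nu i t) → Mod Lam I nu c) ∧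
    (Mod Lam I mu (fun i t => deriv (c i) t)) ∧
    (∀ k : ι → ℝ, (∀ i, 0 ≤ k i) →
      Mod Lam I (fun i t => k i * mu i t) (fun i t => k i * c i t))

/-- A3: constants. -/
def claimA3 : Prop := ∀ (ι : Type) (Lam : ι → ℝ) (I : ι → Set ℝ) (mu : ι → ℝ → ℝ)
    (k : ι → ℝ), (∀ i, 2 ≤ Lam i) → (∃ n : ℕ, ∀ i, ∀ t ∈ I i, |k i| ≤ Lam i ^ n * mu i t) →
    Mod Lam I mu (fun i _ => k i)

/-! ## B: profiles and symbols -/

/-- B1: closure properties of the spatial profiles. -/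
def claimB1 : Prop :=
  (∀ f g : V3 → ℝ, Pb f → Pb g → Pb (fun y => f y * g y)) ∧
  (∀ f g : V3 → ℝ, Pb f → Pf g → Pf (fun y => f y * g y)) ∧
  (∀ (f : V3 → ℝ) (k : Fin 3), Pb f → Pb (fun y => fderiv ℝ f y (Pi.single k 1))) ∧
  (∀ (f : V3 → ℝ) (k : Fin 3), Pf f → Pf (fun y => fderiv ℝ f y (Pi.single k 1))) ∧
  (∀ (f : V3 → ℝ) (k : Fin 3), Pb f → (∀ y, ‖y‖ < 1 / 2 → f y = 1) →
    Pf (fun y => fderiv ℝ f y (Pi.single k 1)))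

/-- B2: closure properties of the periodic profiles. -/
def claimB2 : Prop :=
  (∀ f g : ℝ → ℝ, Qp f → Qp g → Qp (fun y => f y * g y)) ∧
  (∀ f : ℝ → ℝ, Qp f → Qz (deriv f)) ∧
  (∀ f : ℝ → ℝ, Qp f → Qz (fun x => f x - ∫ θ in (0 : ℝ)..1, f θ)) ∧
  (∀ f : ℝ → ℝ, Qz f → ∃ g : ℝ → ℝ, Qz g ∧ deriv g = f)

/-- B3: products of symbols. -/
def claimB3 : Prop := ∀ (ι : Type) (Lam : ι → ℝ) (I : ι → Set ℝ) (mu nu rho : ι → ℝ → ℝ)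
    (P P' P'' : (V3 → ℝ) → Prop) (Q Q' Q'' : (ℝ → ℝ) → Prop) (f g : Sm ι),
    (∀ i, 2 ≤ Lam i) →
    (∀ x y, P x → P' y → P'' (fun z => x z * y z)) →
    (∀ x y, Q x → Q' y → Q'' (fun z => x z * y z)) →
    (∀ i, ∀ t ∈ I i, mu i t * nu i t ≤ rho i t) →
    f ∈ Sym Lam I mu P Q → g ∈ Sym Lam I nu P' Q' → f * g ∈ Sym Lam I rho P'' Q''

/-- B4: multiplication of a symbol by a coefficient; monotonicity. -/
def claimB4 : Prop := ∀ (ι : Type) (Lam : ι → ℝ) (I : ι → Set ℝ) (mu nu rho : ι → ℝ → ℝ)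
    (P P' : (V3 → ℝ) → Prop) (Q Q' : (ℝ → ℝ) → Prop) (g : Sm ι),
    (∀ i, 2 ≤ Lam i) → (∀ x, P x → P' x) → (∀ x, Q x → Q' x) → g ∈ Sym Lam I mu P Q →
    ((∀ i, ∀ t ∈ I i, mu i t ≤ rho i t) → g ∈ Sym Lam I rho P' Q') ∧
    (∀ (c : ι → ℝ → ℝ) (f : Sm ι), Mod Lam I nu c → IsCoef c f →
      (∀ i, ∀ t ∈ I i, nu i t * mu i t ≤ rho i t) → f * g ∈ Sym Lam I rho P' Q')

/-- B5: derivatives of symbols. -/
def claimB5 : Prop := ∀ (ι : Type) (Lam : ι → ℝ) (I : ι → Set ℝ) (mu : ι → ℝ → ℝ)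
    (P : (V3 → ℝ) → Prop) (Q : (ℝ → ℝ) → Prop) (g : Sm ι),
    (∀ i, 2 ≤ Lam i) → (∀ x, P x → ContDiff ℝ ∞ x) → (∀ x, Q x → ContDiff ℝ ∞ x) →
    g ∈ Sym Lam I mu P Q →
    dt g ∈ Sym Lam I mu P Q ∧
    (∀ k, (∀ x, P x → P (fun y => fderiv ℝ x y (Pi.single k 1))) → dy k g ∈ Sym Lam I mu P Q) ∧
    ((∀ x, Q x → Q (deriv x)) → dth g ∈ Sym Lam I mu P Q)

/-- B6: mean and oscillating part. -/
def claimB6 : Prop := ∀ (ι : Type) (Lam : ι → ℝ) (I : ι → Set ℝ) (mu : ι → ℝ → ℝ)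
    (P : (V3 → ℝ) → Prop) (g : Sm ι), (∀ i, 2 ≤ Lam i) → g ∈ Sym Lam I mu P Qp →
    ∃ m ∈ Sym Lam I mu P Q1, ∃ o ∈ Sym Lam I mu P Qz, g = m + o

/-- B7: the weights. -/
def claimB7 : Prop := ∀ (ι : Type) (I : ι → Set ℝ) (N a : ι → ℝ) (p : ι → ℝ → ℝ),
    (∀ i, 0 ≤ a i) → (∀ i, 1 + a i ≤ N i) → (∀ i t, 0 ≤ p i t) →
    (∀ i, ∀ t ∈ I i, p i t ≤ a i) → ∀ i, ∀ t ∈ I i, ∀ j l : ℕ,
    wt N a p j i t * wt N a p l i t ≤ wt N a p (j + l + 1) i t ∧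
    (N i)⁻¹ * wt N a p j i t ≤ wt N a p (j + 1) i t ∧
    wt N a p (j + 1) i t ≤ wt N a p j i t ∧
    0 ≤ wt N a p j i t ∧
    wt N a p 0 i t * N i = p i t

/-! ## C: derivations -/

/-- C1: commutation of directional derivatives, and additivity in the direction. -/
def claimC1 : Prop := ∀ (ι : Type) (v w : ι → Z) (f : Sm ι),
    dd v (dd w f) = dd w (dd v f) ∧ dd (fun i => v i + w i) f = dd v f + dd w f ∧
    ∀ r : ι → ℝ, dd (fun i => r i • v i) f = cst r * dd v f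

/-- C2: derivatives of an atom. -/
def claimC2 : Prop := ∀ (ι : Type) (c : ι → ℝ → ℝ) (psi : V3 → ℝ) (g : ℝ → ℝ) (f : Sm ι)
    (v : ι → Z), (∀ i, ContDiff ℝ ∞ (c i)) → ContDiff ℝ ∞ psi → ContDiff ℝ ∞ g →
    (∀ i z, f.1 i z = c i z.1 * psi z.2.1 * g z.2.2) →
    ∀ i z, (dd v f).1 i z = (v i).1 * (deriv (c i) z.1 * psi z.2.1 * g z.2.2) +
      (c i z.1 * fderiv ℝ psi z.2.1 (v i).2.1 * g z.2.2) +
      (v i).2.2 * (c i z.1 * psi z.2.1 * deriv g z.2.2)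

/-! ## I: bounds for functions of `(t, x)` -/

/-- `f i` is smooth, and its derivatives of order `m` are at most `Lam ^ n * N ^ m * mu` on
`Om i`. -/
def Bd {ι E F : Type} [NormedAddCommGroup E] [NormedSpace ℝ E] [NormedAddCommGroup F]
    [NormedSpace ℝ F] (Lam : ι → ℝ) (Om : ι → Set E) (N : ι → ℝ) (mu : ι → ℝ)
    (f : ι → E → F) : Prop :=
  (∀ i, ContDiff ℝ ∞ (f i)) ∧
    ∀ m : ℕ, ∃ n : ℕ, ∀ i, ∀ z ∈ Om i, ‖iteratedFDeriv ℝ m (f i) z‖ ≤ Lam i ^ n * N i ^ m * mu i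

/-- I1: sums and products. -/
def claimI1 : Prop := ∀ (ι E : Type) [NormedAddCommGroup E] [NormedSpace ℝ E] (Lam : ι → ℝ)
    (Om : ι → Set E) (N mu : ι → ℝ) (f g : ι → E → ℝ), (∀ i, 2 ≤ Lam i) → (∀ i, 0 ≤ N i) →
    (∀ i, 0 ≤ mu i) → Bd Lam Om N mu f →
    (Bd Lam Om N mu g → Bd Lam Om N mu (fun i z => f i z + g i z)) ∧
    (∀ nu : ι → ℝ, Bd Lam Om N nu g → Bd Lam Om N (fun i => mu i * nu i)
      (fun i z => f i z * g i z)) ∧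
    (∀ r : ℝ, Bd Lam Om N mu (fun i z => r * f i z)) ∧
    (∀ N' nu : ι → ℝ, (∀ i, N i ≤ N' i) → (∀ i, mu i ≤ nu i) → Bd Lam Om N' nu f)

/-- I2: composition with a fixed function all of whose derivatives are bounded; only the
derivatives of order `≥ 1` of the inner function are used. -/
def claimI2 : Prop := ∀ (ι E F : Type) [NormedAddCommGroup E] [NormedSpace ℝ E]
    [NormedAddCommGroup F] [NormedSpace ℝ F] (Lam : ι → ℝ) (Om : ι → Set E) (N : ι → ℝ)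
    (f : ι → E → F) (g : F → ℝ), (∀ i, 2 ≤ Lam i) → (∀ i, 1 ≤ N i) → ContDiff ℝ ∞ g →
    (∀ m : ℕ, ∃ C : ℝ, ∀ x, ‖iteratedFDeriv ℝ m g x‖ ≤ C) → (∀ i, ContDiff ℝ ∞ (f i)) →
    (∀ m : ℕ, 1 ≤ m → ∃ n : ℕ, ∀ i, ∀ z ∈ Om i, ‖iteratedFDeriv ℝ m (f i) z‖ ≤
      Lam i ^ n * N i ^ m) →
    Bd Lam Om N (fun _ => 1) (fun i z => g (f i z))

/-- I3: profiles have bounded derivatives. -/
def claimI3 : Prop := (∀ psi : V3 → ℝ, Pb psi → ∀ m : ℕ, ∃ C : ℝ, ∀ x,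
    ‖iteratedFDeriv ℝ m psi x‖ ≤ C) ∧ (∀ g : ℝ → ℝ, Qp g → ∀ m : ℕ, ∃ C : ℝ, ∀ x,
    ‖iteratedFDeriv ℝ m g x‖ ≤ C)

/-- I4: moderate coefficients as functions of `(t, x)`. -/
def claimI4 : Prop := ∀ (ι E : Type) [NormedAddCommGroup E] [NormedSpace ℝ E] (Lam : ι → ℝ)
    (I : ι → Set ℝ) (Om : ι → Set (ℝ × E)) (mu : ι → ℝ) (c : ι → ℝ → ℝ), (∀ i, 2 ≤ Lam i) →
    (∀ i, ∀ z ∈ Om i, z.1 ∈ I i) → Mod Lam I (fun i _ => mu i) c →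
    Bd Lam Om (fun _ => 1) mu (fun i z => c i z.1)

/-- I5: a linear functional of `x ∈ V3` with moderate coefficients. -/
def claimI5 : Prop := ∀ (ι : Type) (Lam : ι → ℝ) (I : ι → Set ℝ) (mu : ι → ℝ)
    (c : Fin 3 → ι → ℝ → ℝ), (∀ i, 2 ≤ Lam i) → (∀ i, 0 ≤ mu i) →
    (∀ k, Mod Lam I (fun i _ => mu i) (c k)) →
    Bd Lam (fun i => I i ×ˢ Metric.closedBall (0 : V3) 1) (fun _ => 1) mu
      (fun i z => ∑ k, c k i z.1 * z.2 k)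

/-- I6: from scalar components to vectors. -/
def claimI6 : Prop := ∀ (ι E : Type) [NormedAddCommGroup E] [NormedSpace ℝ E]
    (Lam : ι → ℝ) (Om : ι → Set E) (N mu : ι → ℝ) (f : ι → E → V3), (∀ i, 2 ≤ Lam i) →
    (∀ i, 0 ≤ N i) → (∀ i, 0 ≤ mu i) → (∀ k, Bd Lam Om N mu (fun i z => f i z k)) →
    Bd Lam Om N mu f

/-! ## J: special functions -/

/-- J1: the envelope and the wave profile. -/
def claimJ1 : Prop :=
  (∃ chi : V3 → ℝ, Pb chi ∧ ∀ y, ‖y‖ < 1 / 2 → chi y = 1) ∧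
  (∃ h : ℝ → ℝ, Qz h ∧ ∀ θ, |θ| ≤ 1 / 12 → h θ = θ)

/-- J2: the cut-off functions in time. -/
def claimJ2 : Prop := ∀ (ι : Type) (Lam : ι → ℝ) (I : ι → Set ℝ) (s del : ι → ℝ),
    (∀ i, 2 ≤ Lam i) → (∀ i, 0 < del i) → (∃ n : ℕ, ∀ i, (del i)⁻¹ ≤ Lam i ^ n) →
    ∃ eta : ι → ℝ → ℝ, Mod Lam I (fun _ _ => 1) eta ∧ (∀ i t, 0 ≤ eta i t ∧ eta i t ≤ 1) ∧
      (∀ i t, t ≤ s i → eta i t = 0) ∧ (∀ i t, s i + del i ≤ t → eta i t = 1) ∧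
      Mod Lam I (fun i t => if t ≤ s i + del i then 1 else 0) (fun i t => deriv (eta i) t) ∧
      Mod Lam I (fun i t => if t ≤ s i + del i then 1 else 0)
        (fun i t => eta i t * eta i t - eta i t)

end Pool.Agent.Work.MP_b0497c_an.Forced.W
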